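import Pool.Agent.H25.NM.Chain

/-!
The chain argument for monotone functions that depend on the current graph of the chain.
-/

namespace Pool.Agent.H25.NP

open Finset
open Pool.Agent.H25.NM

set_option linter.unusedSectionVars false

section

variable {V Ω P : Type} [Fintype V] [Fintype Ω] [Fintype P] {n J : ℕ}
variable {φ : Fin J → V ↪ Fin n} {R : Ω → SimpleGraph V} {A : P → Finset V}

/-- One block. -/
theorem error_le' [Nonempty Ω] {s : ℕ} {ε : ℝ}
    (BL : ∀ F : SimpleGraph V → Prop, MonoSize s F →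
      (nc (fun x : P × Ω => F (cq (A x.1)) ∧ ¬ F (R x.2)) : ℝ) ≤
        Fintype.card P * nc (fun ω => F (R ω)) + ε * (Fintype.card P * Fintype.card Ω))
    {F : SimpleGraph (Fin n) → SimpleGraph (Fin n) → Prop} (hF : ∀ G, MonoSize s (F G))
    (j : Fin J) :
    (nc (fun x : P × (Fin J → Ω) =>
        F (pre φ R x.2 j.1) (pre φ R x.2 j.1 ⊔ (cq (A x.1)).map (φ j)) ∧
        ¬ F (pre φ R x.2 j.1) (pre φ R x.2 (j.1 + 1))) : ℝ) ≤
      Fintype.card P * nc (fun ω : Fin J → Ω => F (pre φ R ω j.1) (pre φ R ω (j.1 + 1))) +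
      ε * (Fintype.card P * Fintype.card (Fin J → Ω)) := by
  have hΩ : (0 : ℝ) < Fintype.card Ω := by exact_mod_cast Fintype.card_pos
  rw [← mul_le_mul_iff_right₀ hΩ]
  have h1 := nc_update_prod j fun (p : P) (ω : Fin J → Ω) =>
    F (pre φ R ω j.1) (pre φ R ω j.1 ⊔ (cq (A p)).map (φ j)) ∧
      ¬ F (pre φ R ω j.1) (pre φ R ω (j.1 + 1))
  have h2 := nc_update j fun ω : Fin J → Ω => F (pre φ R ω j.1) (pre φ R ω (j.1 + 1))
  have h1' : (Fintype.card Ω : ℝ) * nc (fun x : P × (Fin J → Ω) =>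
      F (pre φ R x.2 j.1) (pre φ R x.2 j.1 ⊔ (cq (A x.1)).map (φ j)) ∧
      ¬ F (pre φ R x.2 j.1) (pre φ R x.2 (j.1 + 1))) =
      ∑ ω : Fin J → Ω, (nc (fun z : P × Ω =>
        F (pre φ R (Function.update ω j z.2) j.1)
          (pre φ R (Function.update ω j z.2) j.1 ⊔ (cq (A z.1)).map (φ j)) ∧
        ¬ F (pre φ R (Function.update ω j z.2) j.1)
          (pre φ R (Function.update ω j z.2) (j.1 + 1))) : ℝ) := by
    exact_mod_cast h1
  have h2' : (Fintype.card Ω : ℝ) * nc (fun ω : Fin J → Ω =>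
      F (pre φ R ω j.1) (pre φ R ω (j.1 + 1))) =
      ∑ ω : Fin J → Ω, (nc (fun y =>
        F (pre φ R (Function.update ω j y) j.1)
          (pre φ R (Function.update ω j y) (j.1 + 1))) : ℝ) := by
    exact_mod_cast h2
  rw [h1']
  have h3 : ∀ ω : Fin J → Ω, (nc (fun z : P × Ω =>
        F (pre φ R (Function.update ω j z.2) j.1)
          (pre φ R (Function.update ω j z.2) j.1 ⊔ (cq (A z.1)).map (φ j)) ∧
        ¬ F (pre φ R (Function.update ω j z.2) j.1)
          (pre φ R (Function.update ω j z.2) (j.1 + 1))) : ℝ) ≤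
      Fintype.card P * (nc (fun y =>
        F (pre φ R (Function.update ω j y) j.1)
          (pre φ R (Function.update ω j y) (j.1 + 1))) : ℝ) +
      ε * (Fintype.card P * Fintype.card Ω) := by
    intro ω
    have e1 : ∀ y, pre φ R (Function.update ω j y) (j.1 + 1) =
        pre φ R ω j.1 ⊔ (R y).map (φ j) := by
      intro y
      rw [pre_succ, pre_update, Function.update_self]
    simp only [e1, pre_update]
    exact BL _ ((hF (pre φ R ω j.1)).restrict (φ j) (pre φ R ω j.1))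
  calc (∑ ω : Fin J → Ω, (nc (fun z : P × Ω =>
        F (pre φ R (Function.update ω j z.2) j.1)
          (pre φ R (Function.update ω j z.2) j.1 ⊔ (cq (A z.1)).map (φ j)) ∧
        ¬ F (pre φ R (Function.update ω j z.2) j.1)
          (pre φ R (Function.update ω j z.2) (j.1 + 1))) : ℝ))
      ≤ ∑ ω : Fin J → Ω, (Fintype.card P * (nc (fun y =>
        F (pre φ R (Function.update ω j y) j.1)
          (pre φ R (Function.update ω j y) (j.1 + 1))) : ℝ) +
      ε * (Fintype.card P * Fintype.card Ω)) := Finset.sum_le_sum fun ω _ => h3 ω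
    _ = Fintype.card Ω * (Fintype.card P * nc (fun ω : Fin J → Ω =>
        F (pre φ R ω j.1) (pre φ R ω (j.1 + 1))) +
      ε * (Fintype.card P * Fintype.card (Fin J → Ω))) := by
        rw [Finset.sum_add_distrib, ← Finset.mul_sum, ← h2', Finset.sum_const, nsmul_eq_mul,
          Finset.card_univ]
        ring

/-- **Chain theorem.** -/
theorem chain_alt [Nonempty Ω] [Nonempty P] {s : ℕ} {ε : ℝ}
    (BL : ∀ F : SimpleGraph V → Prop, MonoSize s F →
      (nc (fun x : P × Ω => F (cq (A x.1)) ∧ ¬ F (R x.2)) : ℝ) ≤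
        Fintype.card P * nc (fun ω => F (R ω)) + ε * (Fintype.card P * Fintype.card Ω))
    {F : SimpleGraph (Fin n) → SimpleGraph (Fin n) → Prop} (hF : ∀ G, MonoSize s (F G))
    (good : SimpleGraph (Fin n) → Prop) (hmono : ∀ x y, x ≤ y → good y → good x)
    (hgood : ∀ (j : Fin J) (p : P) (G : SimpleGraph (Fin n)), good G →
      F G (G ⊔ (cq (A p)).map (φ j)))
    {a : ℕ} (halt : ∀ ω : Fin J → Ω,
      nc (fun j : Fin J => F (pre φ R ω j.1) (pre φ R ω (j.1 + 1))) ≤ a) :
    (J : ℝ) * nc (fun ω : Fin J → Ω => good (pre φ R ω J)) ≤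
      (2 * a + J * ε) * Fintype.card (Fin J → Ω) := by
  have hP : (0 : ℝ) < Fintype.card P := by exact_mod_cast Fintype.card_pos
  -- per block
  have h1 : ∀ j : Fin J, (Fintype.card P : ℝ) * nc (fun ω : Fin J → Ω => good (pre φ R ω J)) ≤
      2 * (Fintype.card P * nc (fun ω : Fin J → Ω =>
        F (pre φ R ω j.1) (pre φ R ω (j.1 + 1)))) +
        ε * (Fintype.card P * Fintype.card (Fin J → Ω)) := by
    intro j
    have e1 : Fintype.card P * nc (fun ω : Fin J → Ω => good (pre φ R ω J)) =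
        nc (fun x : P × (Fin J → Ω) => True ∧ good (pre φ R x.2 J)) := by
      rw [nc_prod_and (fun _ : P => True) fun ω : Fin J → Ω => good (pre φ R ω J),
        nc_true fun _ => trivial]
    have e2 : nc (fun x : P × (Fin J → Ω) => True ∧ good (pre φ R x.2 J)) ≤
        nc (fun x : P × (Fin J → Ω) =>
          F (pre φ R x.2 j.1) (pre φ R x.2 j.1 ⊔ (cq (A x.1)).map (φ j)) ∧
            ¬ F (pre φ R x.2 j.1) (pre φ R x.2 (j.1 + 1))) +
        nc (fun x : P × (Fin J → Ω) =>
          True ∧ F (pre φ R x.2 j.1) (pre φ R x.2 (j.1 + 1))) := by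
      refine le_trans (nc_mono fun x hx => ?_) (nc_or_le _ _)
      have h2 := hgood j x.1 _ (hmono _ _ (pre_mono x.2 j.2.le) hx.2)
      by_cases h3 : F (pre φ R x.2 j.1) (pre φ R x.2 (j.1 + 1))
      · exact Or.inr ⟨trivial, h3⟩
      · exact Or.inl ⟨h2, h3⟩
    have e3 := error_le' (φ := φ) BL hF j
    have e4 : nc (fun x : P × (Fin J → Ω) =>
          True ∧ F (pre φ R x.2 j.1) (pre φ R x.2 (j.1 + 1))) =
          Fintype.card P * nc (fun ω : Fin J → Ω =>
            F (pre φ R ω j.1) (pre φ R ω (j.1 + 1))) := by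
      rw [nc_prod_and (fun _ : P => True) fun ω : Fin J → Ω =>
        F (pre φ R ω j.1) (pre φ R ω (j.1 + 1)), nc_true fun _ => trivial]
    rw [← e1, e4] at e2
    have e5 : (Fintype.card P : ℝ) * nc (fun ω : Fin J → Ω => good (pre φ R ω J)) ≤
        nc (fun x : P × (Fin J → Ω) =>
          F (pre φ R x.2 j.1) (pre φ R x.2 j.1 ⊔ (cq (A x.1)).map (φ j)) ∧
            ¬ F (pre φ R x.2 j.1) (pre φ R x.2 (j.1 + 1))) +
        Fintype.card P * nc (fun ω : Fin J → Ω =>
            F (pre φ R ω j.1) (pre φ R ω (j.1 + 1))) := by exact_mod_cast e2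
    linarith
  -- sum over the blocks
  have h2 : (J : ℝ) * (Fintype.card P * nc (fun ω : Fin J → Ω => good (pre φ R ω J))) ≤
      ∑ j : Fin J, (2 * (Fintype.card P * nc (fun ω : Fin J → Ω =>
        F (pre φ R ω j.1) (pre φ R ω (j.1 + 1)))) +
        ε * (Fintype.card P * Fintype.card (Fin J → Ω)) : ℝ) := by
    have := Finset.sum_le_sum fun (j : Fin J) (_ : j ∈ univ) => h1 j
    rw [Finset.sum_const, nsmul_eq_mul, Finset.card_univ, Fintype.card_fin] at this
    exact this
  have h3 : ∑ j : Fin J, nc (fun ω : Fin J → Ω => F (pre φ R ω j.1) (pre φ R ω (j.1 + 1))) ≤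
      a * Fintype.card (Fin J → Ω) := by
    have g1 := nc_prod fun (j : Fin J) (ω : Fin J → Ω) => F (pre φ R ω j.1) (pre φ R ω (j.1 + 1))
    rw [← g1]
    have g2 := nc_equiv (Equiv.prodComm (Fin J → Ω) (Fin J)) fun x : Fin J × (Fin J → Ω) =>
      F (pre φ R x.2 x.1.1) (pre φ R x.2 (x.1.1 + 1))
    rw [← g2]
    have g3 := nc_prod fun (ω : Fin J → Ω) (j : Fin J) => F (pre φ R ω j.1) (pre φ R ω (j.1 + 1))
    refine (le_of_eq g3).trans ?_
    calc ∑ ω : Fin J → Ω, nc (fun j : Fin J => F (pre φ R ω j.1) (pre φ R ω (j.1 + 1)))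
        ≤ ∑ ω : Fin J → Ω, a := Finset.sum_le_sum fun ω _ => halt ω
      _ = a * Fintype.card (Fin J → Ω) := by
          rw [Finset.sum_const, Finset.card_univ, smul_eq_mul, mul_comm]
  have h3' : (∑ j : Fin J, (nc (fun ω : Fin J → Ω =>
      F (pre φ R ω j.1) (pre φ R ω (j.1 + 1))) : ℝ)) ≤ a * Fintype.card (Fin J → Ω) := by
    exact_mod_cast h3
  rw [Finset.sum_add_distrib, Finset.sum_const, nsmul_eq_mul, Finset.card_univ,
    Fintype.card_fin, ← Finset.mul_sum, ← Finset.mul_sum] at h2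
  have h6 := mul_le_mul_of_nonneg_left h3' hP.le
  rw [← mul_le_mul_iff_left₀ hP]
  nlinarith

end

end Pool.Agent.H25.NP
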