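import Mathlib

/-!
Circuits on graphs with AND and OR gates of any fan-in and arbitrary special gates; quantifiers
over bits.
-/

namespace Pool.Agent.H25.NP

/-- A circuit with `s` gates on graphs with vertex set `Fin n`, in topological order: gate `i`
reads the earlier gates in `ins i` and computes the property `fn i` of the input graph. Each gate
tests whether two fixed vertices are adjacent, is the AND or the OR of the gates it reads, or is
one of the special gates, which compute arbitrary functions of the gates they read. -/
structure Circuit (n s : ℕ) where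
  /-- the property computed by a gate -/
  fn : Fin s → SimpleGraph (Fin n) → Prop
  /-- the gates read by a gate -/
  ins : Fin s → Finset (Fin s)
  /-- the special gates -/
  special : Finset (Fin s)
  lt : ∀ i, ∀ j ∈ ins i, j < i
  gate : ∀ i,
    (∃ u v, ∀ G, fn i G ↔ G.Adj u v) ∨
    (∀ G, fn i G ↔ ∀ j ∈ ins i, fn j G) ∨
    (∀ G, fn i G ↔ ∃ j ∈ ins i, fn j G) ∨
    (i ∈ special ∧ ∀ G H, (∀ j ∈ ins i, fn j G ↔ fn j H) → (fn i G ↔ fn i H))

/-- The gates that are read by a special gate. -/
def Circuit.watched {n s : ℕ} (C : Circuit n s) : Finset (Fin s) := C.special.biUnion C.ins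

/-- `Quantified q Q f` is the statement `Q₀ y₀ Q₁ y₁ ... f y` about the bits `y`, where `Q i` is
an existential quantifier if it is true and a universal quantifier if it is false. -/
def Quantified : (q : ℕ) → (Fin q → Bool) → ((Fin q → Bool) → Prop) → Prop
  | 0, _, f => f Fin.elim0
  | q + 1, Q, f =>
    if Q 0 then ∃ b, Quantified q (fun i => Q i.succ) (fun y => f (Fin.cons b y))
    else ∀ b, Quantified q (fun i => Q i.succ) (fun y => f (Fin.cons b y))

end Pool.Agent.H25.NP
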