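import Pool.Agent.H25.NP.Prog
import Pool.Agent.H25.NP.Defs

/-!
Circuits on graphs with AND and OR gates of any fan-in and arbitrary special gates.
-/

namespace Pool.Agent.H25.NP

open Finset

variable {n s : ℕ}

/-- As long as the special gates keep their values, all gates are monotone. -/
theorem Circuit.mono (C : Circuit n s) (Q : Fin s → Prop) (hQ : ∀ i, Q i → ∀ j ∈ C.ins i, Q j)
    {x y : SimpleGraph (Fin n)} (hxy : x ≤ y)
    (hsp : ∀ l ∈ C.special, Q l → (C.fn l x ↔ C.fn l y)) :
    ∀ i, Q i → C.fn i x → C.fn i y := by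
  suffices H : ∀ m : ℕ, ∀ i : Fin s, i.1 < m → Q i → C.fn i x → C.fn i y by
    exact fun i => H s i i.2
  intro m
  induction m with
  | zero =>
    intro i hi
    omega
  | succ m ih =>
    intro i hi hQi hx
    have ih' : ∀ j ∈ C.ins i, C.fn j x → C.fn j y := by
      intro j hj
      have h1 : j.1 < i.1 := C.lt i j hj
      exact ih j (by omega) (hQ i hQi j hj)
    rcases C.gate i with ⟨u, v, h⟩ | h | h | ⟨h, _⟩
    · rw [h] at hx ⊢
      exact hxy hx
    · rw [h] at hx ⊢
      exact fun j hj => ih' j hj (hx j hj)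
    · rw [h] at hx ⊢
      obtain ⟨j, hj, hx⟩ := hx
      exact ⟨j, hj, ih' j hj hx⟩
    · exact (hsp i h hQi).1 hx

/-- The special gates that are not of one of the first three kinds. -/
noncomputable def Circuit.proper (C : Circuit n s) : Finset (Fin s) :=
  @Finset.filter _ (fun i => ¬ ((∃ u v, ∀ G, C.fn i G ↔ G.Adj u v) ∨
    (∀ G, C.fn i G ↔ ∀ j ∈ C.ins i, C.fn j G) ∨
    (∀ G, C.fn i G ↔ ∃ j ∈ C.ins i, C.fn j G))) (Classical.decPred _) C.special

theorem Circuit.mem_proper {C : Circuit n s} {i : Fin s} : i ∈ C.proper ↔ i ∈ C.special ∧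
    ¬ ((∃ u v, ∀ G, C.fn i G ↔ G.Adj u v) ∨
    (∀ G, C.fn i G ↔ ∀ j ∈ C.ins i, C.fn j G) ∨
    (∀ G, C.fn i G ↔ ∃ j ∈ C.ins i, C.fn j G)) := by
  unfold Circuit.proper
  simp only [Finset.mem_filter]

theorem Circuit.proper_spec {C : Circuit n s} {i : Fin s} (hi : i ∈ C.proper) :
    ∀ G H, (∀ j ∈ C.ins i, C.fn j G ↔ C.fn j H) → (C.fn i G ↔ C.fn i H) := by
  obtain ⟨_, h2⟩ := Circuit.mem_proper.1 hi
  rcases C.gate i with h | h | h | h
  · exact absurd (Or.inl h) h2
  · exact absurd (Or.inr (Or.inl h)) h2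
  · exact absurd (Or.inr (Or.inr h)) h2
  · exact h.2

theorem Circuit.ins_subset {C : Circuit n s} {i : Fin s} (hi : i ∈ C.special) :
    C.ins i ⊆ C.watched := fun _ hj => Finset.mem_biUnion.2 ⟨i, hi, hj⟩

/-- Equal values of the watched gates below `i` give equal values of the proper special
gates up to `i`. -/
theorem Circuit.special_eq (C : Circuit n s) {x y : SimpleGraph (Fin n)} {l : Fin s}
    (hl : l ∈ C.proper) (h : ∀ j ∈ C.watched, j < l → (C.fn j x ↔ C.fn j y)) :
    C.fn l x ↔ C.fn l y :=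
  C.proper_spec hl x y fun j hj => h j
    (C.ins_subset (Circuit.mem_proper.1 hl).1 hj) (C.lt l j hj)

/-- As long as the proper special gates keep their values, all gates are monotone. -/
theorem Circuit.mono' (C : Circuit n s) (Q : Fin s → Prop) (hQ : ∀ i, Q i → ∀ j ∈ C.ins i, Q j)
    {x y : SimpleGraph (Fin n)} (hxy : x ≤ y)
    (hsp : ∀ l ∈ C.proper, Q l → (C.fn l x ↔ C.fn l y)) :
    ∀ i, Q i → C.fn i x → C.fn i y := by
  classical
  let C' : Circuit n s :=
    { fn := C.fn
      ins := C.ins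
      special := C.proper
      lt := C.lt
      gate := fun i => by
        rcases C.gate i with h | h | h | h
        · exact Or.inl h
        · exact Or.inr (Or.inl h)
        · exact Or.inr (Or.inr (Or.inl h))
        · by_cases h' : (∃ u v, ∀ G, C.fn i G ↔ G.Adj u v) ∨
            (∀ G, C.fn i G ↔ ∀ j ∈ C.ins i, C.fn j G) ∨
            (∀ G, C.fn i G ↔ ∃ j ∈ C.ins i, C.fn j G)
          · rcases h' with h' | h' | h'
            · exact Or.inl h'
            · exact Or.inr (Or.inl h')
            · exact Or.inr (Or.inr (Or.inl h'))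
          · exact Or.inr (Or.inr (Or.inr ⟨Circuit.mem_proper.2 ⟨h.1, h'⟩, h.2⟩)) }
  exact C'.mono Q hQ hxy hsp

/-- For every graph `G` the change of a gate in a set `I` (which contains the watched gates) is
detected by a monotone program. -/
theorem Circuit.exists_detector (C : Circuit n s) (I : Finset (Fin s)) (hI : C.watched ⊆ I)
    (G : SimpleGraph (Fin n)) :
    ∃ F : SimpleGraph (Fin n) → Prop, NM.MonoSize ((s + 1) * (s + 2)) F ∧ ¬ F G ∧
      (∀ H, G ≤ H → (F H ↔ ∃ i ∈ I, ¬ (C.fn i G ↔ C.fn i H))) := by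
  classical
  set X : Finset (Fin s) := C.proper with hX
  let fn' : Fin s → Finset (Sym2 (Fin n)) → Prop := fun i F =>
    C.fn i (SimpleGraph.fromEdgeSet (F : Set (Sym2 (Fin n))))
  have hfn' : ∀ i G, fn' i (es G) ↔ C.fn i G := by
    intro i G
    show C.fn i (SimpleGraph.fromEdgeSet (es G : Set (Sym2 (Fin n)))) ↔ _
    rw [fromEdgeSet_es]
  have hXp : ∀ i, i ∉ X → NS.Plain fn' i := by
    intro i hi
    have h0 : (∃ u v, ∀ G, C.fn i G ↔ G.Adj u v) ∨
        (∀ G, C.fn i G ↔ ∀ j ∈ C.ins i, C.fn j G) ∨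
        (∀ G, C.fn i G ↔ ∃ j ∈ C.ins i, C.fn j G) := by
      rcases C.gate i with h | h | h | h
      · exact Or.inl h
      · exact Or.inr (Or.inl h)
      · exact Or.inr (Or.inr h)
      · by_contra hcon
        exact hi (Circuit.mem_proper.2 ⟨h.1, hcon⟩)
    rcases h0 with ⟨u, v, h⟩ | h | h
    · by_cases huv : u = v
      · refine Or.inr (Or.inr ⟨∅, fun j hj => absurd hj (Finset.notMem_empty j), fun F => ?_⟩)
        show C.fn i _ ↔ _
        rw [h, huv]
        constructor
        · intro h1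
          exact absurd h1 (SimpleGraph.irrefl _)
        · rintro ⟨j, hj, _⟩
          exact absurd hj (Finset.notMem_empty j)
      · refine Or.inl ⟨s(u, v), fun F => ?_⟩
        show C.fn i _ ↔ _
        rw [h, SimpleGraph.fromEdgeSet_adj, Finset.mem_coe]
        exact ⟨fun h1 => h1.1, fun h1 => ⟨h1, huv⟩⟩
    · exact Or.inr (Or.inl ⟨C.ins i, C.lt i, fun F => h _⟩)
    · exact Or.inr (Or.inr ⟨C.ins i, C.lt i, fun F => h _⟩)
  obtain ⟨f, hf1, hf2⟩ := NS.exists_program fn' X hXp fun l => C.fn l G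
  -- the program agrees with the circuit as long as the special gates keep their values
  have hfG : ∀ i : Fin s, f i (es G) ↔ C.fn i G := by
    intro i
    rw [← hfn' i G]
    exact hf2 i _ fun l _ _ => hfn' l G
  have hfH : ∀ (H : SimpleGraph (Fin n)) (i : Fin s),
      (∀ l ∈ X, l ≤ i → (C.fn l H ↔ C.fn l G)) → (f i (es H) ↔ C.fn i H) := by
    intro H i h
    rw [← hfn' i H]
    refine hf2 i _ fun l hl hli => ?_
    rw [hfn']
    exact h l hl hli
  -- all programs are monotone
  have hmon : ∀ (H : SimpleGraph (Fin n)), G ≤ H → ∀ i : Fin s, f i (es G) → f i (es H) := by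
    intro H hGH i h
    obtain ⟨F, hF, hF'⟩ : ∃ F : SimpleGraph (Fin n) → Prop, NM.MonoSize (s * (s + 1)) F ∧
        ∀ x, F x ↔ f i (es x) := ⟨_, monoSize_of_program hf1 i.2, fun _ => Iff.rfl⟩
    rw [← hF'] at h ⊢
    exact hF.mono hGH h
  -- the detector
  let Z : Finset ℕ := (I.filter fun i => ¬ C.fn i G).image Fin.val
  let g : ℕ → Finset (Sym2 (Fin n)) → Prop := Function.update f s fun E => ∃ j ∈ Z, f j E
  have hZ : ∀ j ∈ Z, j < s := by
    intro j hj
    obtain ⟨i, _, rfl⟩ := Finset.mem_image.1 hj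
    exact i.2
  have hg : ∀ j < s, g j = f j := fun j hj => Function.update_of_ne (by omega) _ _
  have hg1 : ∀ i < s + 1, NS.MGate g i := by
    intro i hi
    rcases Nat.lt_succ_iff_lt_or_eq.1 hi with hi | rfl
    · rcases hf1 i hi with ⟨c, h⟩ | ⟨S, hS, h⟩ | ⟨S, hS, h⟩
      · exact Or.inl ⟨c, by rw [hg i hi]; exact h⟩
      · refine Or.inr (Or.inl ⟨S, hS, fun x => ?_⟩)
        rw [hg i hi, h]
        constructor
        · intro h' j hj
          rw [hg j ((hS j hj).trans hi)]
          exact h' j hj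
        · intro h' j hj
          have := h' j hj
          rwa [hg j ((hS j hj).trans hi)] at this
      · refine Or.inr (Or.inr ⟨S, hS, fun x => ?_⟩)
        rw [hg i hi, h]
        constructor
        · rintro ⟨j, hj, h'⟩
          exact ⟨j, hj, by rw [hg j ((hS j hj).trans hi)]; exact h'⟩
        · rintro ⟨j, hj, h'⟩
          rw [hg j ((hS j hj).trans hi)] at h'
          exact ⟨j, hj, h'⟩
    · refine Or.inr (Or.inr ⟨Z, hZ, fun x => ?_⟩)
      have e : g i x ↔ ∃ j ∈ Z, f j x := by
        show Function.update f i (fun E => ∃ j ∈ Z, f j E) i x ↔ _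
        rw [Function.update_self]
      rw [e]
      constructor
      · rintro ⟨j, hj, h'⟩
        exact ⟨j, hj, by rw [hg j (hZ j hj)]; exact h'⟩
      · rintro ⟨j, hj, h'⟩
        rw [hg j (hZ j hj)] at h'
        exact ⟨j, hj, h'⟩
  have hgs : ∀ x, g s x ↔ ∃ i ∈ I, ¬ C.fn i G ∧ f i x := by
    intro x
    show Function.update f s (fun E => ∃ j ∈ Z, f j E) s x ↔ _
    rw [Function.update_self]
    constructor
    · rintro ⟨j, hj, h⟩
      obtain ⟨i, hi, rfl⟩ := Finset.mem_image.1 hj
      obtain ⟨h1, h2⟩ := Finset.mem_filter.1 hi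
      exact ⟨i, h1, h2, h⟩
    · rintro ⟨i, h1, h2, h⟩
      exact ⟨i.1, Finset.mem_image_of_mem _ (Finset.mem_filter.2 ⟨h1, h2⟩), h⟩
  refine ⟨fun H => g s (es H), monoSize_of_program hg1 (Nat.lt_succ_self s), ?_, ?_⟩
  · intro h
    obtain ⟨i, _, h2, h3⟩ := (hgs _).1 h
    exact h2 ((hfG i).1 h3)
  · intro H hGH
    show g s (es H) ↔ _
    rw [hgs]
    constructor
    · rintro ⟨i, hiI, h1, h2⟩
      by_contra hcon
      push Not at hcon
      -- all special gates agree
      have h3 : ∀ l ∈ X, (C.fn l H ↔ C.fn l G) := fun l hl =>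
        (C.special_eq hl fun j hj _ => hcon j (hI hj)).symm
      have h4 := (hfH H i fun l hl _ => h3 l hl).1 h2
      exact h1 ((hcon i hiI).2 h4)
    · intro h
      by_contra hcon
      push Not at hcon
      -- the first change
      have h3 : ∀ m : ℕ, ∀ l ∈ X, l.1 < m → (C.fn l H ↔ C.fn l G) := by
        intro m
        induction m with
        | zero =>
          intro l _ hl
          omega
        | succ m ih =>
          intro l hl hlm
          refine (C.special_eq hl fun j hj hjl => ?_).symm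
          have hjl' : j.1 < l.1 := hjl
          have h4 : f j (es H) ↔ C.fn j H := hfH H j fun l' hl' hl'j => by
            have : l'.1 ≤ j.1 := hl'j
            exact ih l' hl' (by omega)
          constructor
          · intro h5
            exact h4.1 (hmon H hGH j ((hfG j).2 h5))
          · intro h5
            by_contra h6
            exact hcon j (hI hj) h6 (h4.2 h5)
      obtain ⟨i, hiI, hne⟩ := h
      apply hne
      have h4 : f i (es H) ↔ C.fn i H := hfH H i fun l hl _ => h3 s l hl l.2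
      constructor
      · intro h5
        exact h4.1 (hmon H hGH i ((hfG i).2 h5))
      · intro h5
        by_contra h6
        exact hcon i hiI h6 (h4.2 h5)

end Pool.Agent.H25.NP
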