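import Pool.Agent.H25.NP.Up
import Pool.Agent.H25.NP.Circ

/-!
Circuits and programs.
-/

set_option linter.unusedSectionVars false

namespace Pool.Agent.H25.NP

open Finset

/-- The edges. -/
abbrev Edge (n : ℕ) : Type := {e : Sym2 (Fin n) // ¬ e.IsDiag}

theorem card_Edge (n : ℕ) : Fintype.card (Edge n) = n.choose 2 := by
  rw [Sym2.card_subtype_not_diag, Fintype.card_fin]

/-- The edge set of a graph. -/
noncomputable def toSet {n : ℕ} (G : SimpleGraph (Fin n)) : Finset (Edge n) :=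
  @Finset.filter _ (fun e => e.1 ∈ G.edgeSet) (Classical.decPred _) univ

theorem mem_toSet {n : ℕ} {G : SimpleGraph (Fin n)} {e : Edge n} :
    e ∈ toSet G ↔ e.1 ∈ G.edgeSet := by
  simp [toSet]

/-- The graph with given edges. -/
def ofSet {n : ℕ} (X : Finset (Edge n)) : SimpleGraph (Fin n) :=
  SimpleGraph.fromEdgeSet {e | ∃ h : ¬ e.IsDiag, (⟨e, h⟩ : Edge n) ∈ X}

theorem ofSet_mono {n : ℕ} {X Y : Finset (Edge n)} (h : X ⊆ Y) : ofSet X ≤ ofSet Y := by
  refine SimpleGraph.fromEdgeSet_mono ?_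
  rintro e ⟨h1, h2⟩
  exact ⟨h1, h h2⟩

theorem ofSet_toSet {n : ℕ} (G : SimpleGraph (Fin n)) : ofSet (toSet G) = G := by
  ext u v
  show (SimpleGraph.fromEdgeSet _).Adj u v ↔ _
  rw [SimpleGraph.fromEdgeSet_adj]
  constructor
  · rintro ⟨⟨h1, h2⟩, _⟩
    exact (SimpleGraph.mem_edgeSet G).1 (mem_toSet.1 h2)
  · intro h
    refine ⟨⟨?_, ?_⟩, h.ne⟩
    · rw [Sym2.mk_isDiag_iff]
      exact h.ne
    · rw [mem_toSet]
      exact (SimpleGraph.mem_edgeSet G).2 h

theorem ofSet_adj {n : ℕ} {X : Finset (Edge n)} {u v : Fin n} (h : ¬ (s(u, v)).IsDiag) :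
    (ofSet X).Adj u v ↔ (⟨s(u, v), h⟩ : Edge n) ∈ X := by
  show (SimpleGraph.fromEdgeSet _).Adj u v ↔ _
  rw [SimpleGraph.fromEdgeSet_adj]
  constructor
  · rintro ⟨⟨_, h2⟩, _⟩
    exact h2
  · intro h2
    refine ⟨⟨h, h2⟩, ?_⟩
    rwa [Sym2.mk_isDiag_iff] at h

/-- Dual rail: a circuit with special gates of fan-in one, as a program without negations. -/
theorem Circuit.dual {n s : ℕ} (C : Circuit n s) (h1 : ∀ i ∈ C.special, (C.ins i).card ≤ 1) :
    ∀ m ≤ s, ∃ l, NProg (Inp (Edge n ⊕ Edge n)) l 0 ∧ l.length ≤ 2 * m ∧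
      ∀ i : Fin s, i.1 < m →
        (∃ p ∈ l, ∀ X, p (lits X) ↔ C.fn i (ofSet X)) ∧
        (∃ q ∈ l, ∀ X, q (lits X) ↔ ¬ C.fn i (ofSet X)) := by
  classical
  intro m
  induction m with
  | zero =>
    intro _
    exact ⟨[], NProg.nil, by simp, fun i hi => absurd hi (Nat.not_lt_zero _)⟩
  | succ m ih =>
    intro hm
    obtain ⟨l, g1, g2, g3⟩ := ih (by omega)
    set i₀ : Fin s := ⟨m, by omega⟩ with hi₀
    -- it suffices to add two gates
    suffices H : ∃ p q, NProg (Inp (Edge n ⊕ Edge n)) (q :: p :: l) 0 ∧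
        (∀ X, p (lits X) ↔ C.fn i₀ (ofSet X)) ∧ (∀ X, q (lits X) ↔ ¬ C.fn i₀ (ofSet X)) by
      obtain ⟨p, q, k1, k2, k3⟩ := H
      refine ⟨q :: p :: l, k1, by simp only [List.length_cons]; omega, ?_⟩
      intro i hi
      rcases Nat.lt_or_ge i.1 m with h | h
      · obtain ⟨⟨p', e1, e2⟩, ⟨q', e3, e4⟩⟩ := g3 i h
        exact ⟨⟨p', List.mem_cons_of_mem _ (List.mem_cons_of_mem _ e1), e2⟩,
          ⟨q', List.mem_cons_of_mem _ (List.mem_cons_of_mem _ e3), e4⟩⟩
      · have : i = i₀ := Fin.ext (by rw [hi₀]; show i.1 = m; omega)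
        rw [this]
        exact ⟨⟨p, List.mem_cons_of_mem _ List.mem_cons_self, k2⟩, ⟨q, List.mem_cons_self, k3⟩⟩
    -- the two functions for each gate read
    have g4 : ∀ j : Fin s, j ∈ C.ins i₀ → j.1 < m := fun j hj => C.lt i₀ j hj
    choose! P hP using fun j (hj : j ∈ C.ins i₀) => (g3 j (g4 j hj)).1
    choose! Q hQ using fun j (hj : j ∈ C.ins i₀) => (g3 j (g4 j hj)).2
    -- sets of rails
    let R : Set (Fin s) → Set (Fin s) → Set (Finset (Edge n ⊕ Edge n) → Prop) := fun a b =>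
      {f | (∃ j ∈ C.ins i₀, j ∈ a ∧ f = P j) ∨ (∃ j ∈ C.ins i₀, j ∈ b ∧ f = Q j)}
    have hR : ∀ a b, ∀ f ∈ R a b, f ∈ l := by
      rintro a b f (⟨j, hj, _, rfl⟩ | ⟨j, hj, _, rfl⟩)
      · exact (hP j hj).1
      · exact (hQ j hj).1
    have hor : ∀ a b X, (∃ f ∈ R a b, f (lits X)) ↔ ((∃ j ∈ C.ins i₀, j ∈ a ∧ C.fn j (ofSet X)) ∨
        (∃ j ∈ C.ins i₀, j ∈ b ∧ ¬ C.fn j (ofSet X))) := by
      intro a b X
      constructor
      · rintro ⟨f, ⟨j, hj, hja, rfl⟩ | ⟨j, hj, hjb, rfl⟩, hf⟩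
        · exact Or.inl ⟨j, hj, hja, ((hP j hj).2 X).1 hf⟩
        · exact Or.inr ⟨j, hj, hjb, ((hQ j hj).2 X).1 hf⟩
      · rintro (⟨j, hj, hja, hf⟩ | ⟨j, hj, hjb, hf⟩)
        · exact ⟨P j, Or.inl ⟨j, hj, hja, rfl⟩, ((hP j hj).2 X).2 hf⟩
        · exact ⟨Q j, Or.inr ⟨j, hj, hjb, rfl⟩, ((hQ j hj).2 X).2 hf⟩
    have hand : ∀ a b X, (∀ f ∈ R a b, f (lits X)) ↔ ((∀ j ∈ C.ins i₀, j ∈ a → C.fn j (ofSet X)) ∧
        (∀ j ∈ C.ins i₀, j ∈ b → ¬ C.fn j (ofSet X))) := by
      intro a b X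
      constructor
      · intro h
        refine ⟨fun j hj hja => ((hP j hj).2 X).1 (h (P j) (Or.inl ⟨j, hj, hja, rfl⟩)),
          fun j hj hjb => ((hQ j hj).2 X).1 (h (Q j) (Or.inr ⟨j, hj, hjb, rfl⟩))⟩
      · rintro ⟨h, h'⟩ f (⟨j, hj, hja, rfl⟩ | ⟨j, hj, hjb, rfl⟩)
        · exact ((hP j hj).2 X).2 (h j hj hja)
        · exact ((hQ j hj).2 X).2 (h' j hj hjb)
    -- two gates
    have two : ∀ (p q : Finset (Edge n ⊕ Edge n) → Prop)
        (S T : Set (Finset (Edge n ⊕ Edge n) → Prop)), (∀ f ∈ S, f ∈ l) → (∀ f ∈ T, f ∈ l) →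
        ((p = fun x => ∀ f ∈ S, f x) ∨ (p = fun x => ∃ f ∈ S, f x)) →
        ((q = fun x => ∀ f ∈ T, f x) ∨ (q = fun x => ∃ f ∈ T, f x)) →
        NProg (Inp (Edge n ⊕ Edge n)) (q :: p :: l) 0 := by
      intro p q S T hS hT hp hq
      have k1 : NProg (Inp (Edge n ⊕ Edge n)) (p :: l) 0 := by
        rcases hp with rfl | rfl
        · exact NProg.and S hS g1
        · exact NProg.or S hS g1
      have hT' : ∀ f ∈ T, f ∈ p :: l := fun f hf => List.mem_cons_of_mem _ (hT f hf)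
      rcases hq with rfl | rfl
      · exact NProg.and T hT' k1
      · exact NProg.or T hT' k1
    -- constants
    have const : (∀ G H, C.fn i₀ G ↔ C.fn i₀ H) → ∃ p q,
        NProg (Inp (Edge n ⊕ Edge n)) (q :: p :: l) 0 ∧
        (∀ X, p (lits X) ↔ C.fn i₀ (ofSet X)) ∧ (∀ X, q (lits X) ↔ ¬ C.fn i₀ (ofSet X)) := by
      intro h
      by_cases h0 : C.fn i₀ ⊥
      · refine ⟨_, _, two _ _ ∅ ∅ (by simp) (by simp) (Or.inl rfl) (Or.inr rfl), fun X => ?_,
          fun X => ?_⟩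
        · simp [(h (ofSet X) ⊥).2 h0]
        · simp [(h (ofSet X) ⊥).2 h0]
      · have h0' : ∀ X, ¬ C.fn i₀ (ofSet X) := fun X hX => h0 ((h (ofSet X) ⊥).1 hX)
        refine ⟨_, _, two _ _ ∅ ∅ (by simp) (by simp) (Or.inr rfl) (Or.inl rfl), fun X => ?_,
          fun X => ?_⟩
        · simp [h0' X]
        · simp [h0' X]
    rcases C.gate i₀ with ⟨u, v, h⟩ | h | h | ⟨hsp, h⟩
    · by_cases huv : (s(u, v)).IsDiag
      · apply const
        intro G H
        rw [h, h]
        rw [Sym2.mk_isDiag_iff] at huv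
        rw [huv]
        simp
      · refine ⟨fun Y => Sum.inl ⟨s(u, v), huv⟩ ∈ Y, fun Y => Sum.inr ⟨s(u, v), huv⟩ ∈ Y,
          NProg.base ⟨_, rfl⟩ (NProg.base ⟨_, rfl⟩ g1), fun X => ?_, fun X => ?_⟩
        · show Sum.inl _ ∈ lits X ↔ _
          rw [mem_lits_inl, h, ofSet_adj huv]
        · show Sum.inr _ ∈ lits X ↔ _
          rw [mem_lits_inr, h, ofSet_adj huv]
    · refine ⟨_, _, two _ _ (R Set.univ ∅) (R ∅ Set.univ) (hR _ _) (hR _ _) (Or.inl rfl)
        (Or.inr rfl), fun X => ?_, fun X => ?_⟩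
      · rw [hand, h]
        simp
      · rw [hor, h]
        simp
    · refine ⟨_, _, two _ _ (R Set.univ ∅) (R ∅ Set.univ) (hR _ _) (hR _ _) (Or.inr rfl)
        (Or.inl rfl), fun X => ?_, fun X => ?_⟩
      · rw [hor, h]
        simp
      · rw [hand, h]
        simp
    · rcases Nat.eq_zero_or_pos (C.ins i₀).card with h0 | h0
      · apply const
        intro G H
        apply h
        intro j hj
        rw [Finset.card_eq_zero.1 h0] at hj
        exact absurd hj (Finset.notMem_empty _)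
      · obtain ⟨j, hj⟩ : ∃ j, C.ins i₀ = {j} := Finset.card_eq_one.1 (by
          have := h1 i₀ hsp
          omega)
        rw [hj] at h
        have h' : ∀ G H, (C.fn j G ↔ C.fn j H) → (C.fn i₀ G ↔ C.fn i₀ H) := by
          intro G H hGH
          apply h
          intro j' hj'
          rw [Finset.mem_singleton.1 hj']
          exact hGH
        have key : ∀ G, C.fn i₀ G ↔ ((C.fn j G ∧ ∃ H, C.fn j H ∧ C.fn i₀ H) ∨
            (¬ C.fn j G ∧ ∃ H, ¬ C.fn j H ∧ C.fn i₀ H)) := by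
          intro G
          constructor
          · intro hG
            by_cases hjG : C.fn j G
            · exact Or.inl ⟨hjG, G, hjG, hG⟩
            · exact Or.inr ⟨hjG, G, hjG, hG⟩
          · rintro (⟨k1, H, k2, k3⟩ | ⟨k1, H, k2, k3⟩)
            · exact (h' G H (iff_of_true k1 k2)).2 k3
            · exact (h' G H (iff_of_false k1 k2)).2 k3
        refine ⟨_, _, two _ _
          (R {_x | ∃ H, C.fn j H ∧ C.fn i₀ H} {_x | ∃ H, ¬ C.fn j H ∧ C.fn i₀ H})
          (R {_x | ¬ ∃ H, C.fn j H ∧ C.fn i₀ H} {_x | ¬ ∃ H, ¬ C.fn j H ∧ C.fn i₀ H})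
          (hR _ _) (hR _ _) (Or.inr rfl) (Or.inr rfl), fun X => ?_, fun X => ?_⟩
        · rw [hor, hj, key]
          simp only [Finset.mem_singleton, exists_eq_left, Set.mem_ofPred_eq]
          generalize (∃ H, C.fn j H ∧ C.fn i₀ H) = a
          generalize (∃ H, ¬ C.fn j H ∧ C.fn i₀ H) = b
          generalize C.fn j (ofSet X) = e
          tauto
        · rw [hor, hj, key]
          simp only [Finset.mem_singleton, exists_eq_left, Set.mem_ofPred_eq]
          generalize (∃ H, C.fn j H ∧ C.fn i₀ H) = a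
          generalize (∃ H, ¬ C.fn j H ∧ C.fn i₀ H) = b
          generalize C.fn j (ofSet X) = e
          tauto

/-- The basic functions for graphs. -/
def Adj (n : ℕ) : Set (SimpleGraph (Fin n) → Prop) := {g | ∃ u v, g = fun G => G.Adj u v}

/-- One more gate. -/
theorem Circuit.ext {n s : ℕ} (C : Circuit n s) (g : SimpleGraph (Fin n) → Prop)
    (I : Finset (Fin s)) (e : ℕ)
    (hg : (∃ u v, ∀ G, g G ↔ G.Adj u v) ∨ (∀ G, g G ↔ ∀ j ∈ I, C.fn j G) ∨
      (∀ G, g G ↔ ∃ j ∈ I, C.fn j G) ∨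
      (e = 1 ∧ ∀ G H, (∀ j ∈ I, C.fn j G ↔ C.fn j H) → (g G ↔ g H)))
    (h1 : ∀ i ∈ C.special, (C.ins i).card ≤ 1) (hI : e = 1 → I.card ≤ 1) :
    ∃ C' : Circuit n (s + 1), (∀ i, C'.fn (Fin.castSucc i) = C.fn i) ∧
      C'.fn (Fin.last s) = g ∧ C'.special.card ≤ C.special.card + e ∧
      ∀ i ∈ C'.special, (C'.ins i).card ≤ 1 := by
  classical
  let fn' : Fin (s + 1) → SimpleGraph (Fin n) → Prop := Fin.snoc (α := fun _ => _) C.fn g
  let ins' : Fin (s + 1) → Finset (Fin (s + 1)) :=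
    Fin.snoc (α := fun _ => _) (fun i => (C.ins i).map Fin.castSuccEmb) (I.map Fin.castSuccEmb)
  let sp' : Finset (Fin (s + 1)) :=
    C.special.map Fin.castSuccEmb ∪ (if e = 1 then {Fin.last s} else ∅)
  have f1 : ∀ i : Fin s, fn' (Fin.castSucc i) = C.fn i := fun i => by simp [fn']
  have f2 : fn' (Fin.last s) = g := by simp [fn']
  have i1 : ∀ i : Fin s, ins' (Fin.castSucc i) = (C.ins i).map Fin.castSuccEmb :=
    fun i => by simp [ins']
  have i2 : ins' (Fin.last s) = I.map Fin.castSuccEmb := by simp [ins']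
  refine ⟨⟨fn', ins', sp', ?_, ?_⟩, f1, f2, ?_, ?_⟩
  · intro i
    refine Fin.lastCases ?_ (fun i => ?_) i
    · intro j hj
      rw [i2, Finset.mem_map] at hj
      obtain ⟨j', _, rfl⟩ := hj
      exact Fin.castSucc_lt_last j'
    · intro j hj
      rw [i1, Finset.mem_map] at hj
      obtain ⟨j', hj', rfl⟩ := hj
      exact Fin.castSucc_lt_castSucc_iff.2 (C.lt i j' hj')
  · intro i
    refine Fin.lastCases ?_ (fun i => ?_) i
    · rw [f2, i2]
      rcases hg with h | h | h | ⟨h, h'⟩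
      · exact Or.inl h
      · refine Or.inr (Or.inl fun G => ?_)
        rw [h]
        constructor
        · intro k j hj
          rw [Finset.mem_map] at hj
          obtain ⟨j', hj', rfl⟩ := hj
          show fn' (Fin.castSucc j') G
          rw [f1]
          exact k j' hj'
        · intro k j hj
          have := k (Fin.castSucc j) (Finset.mem_map_of_mem Fin.castSuccEmb hj)
          rwa [f1] at this
      · refine Or.inr (Or.inr (Or.inl fun G => ?_))
        rw [h]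
        constructor
        · rintro ⟨j, hj, k⟩
          refine ⟨Fin.castSucc j, Finset.mem_map_of_mem Fin.castSuccEmb hj, ?_⟩
          rw [f1]
          exact k
        · rintro ⟨j, hj, k⟩
          rw [Finset.mem_map] at hj
          obtain ⟨j', hj', rfl⟩ := hj
          refine ⟨j', hj', ?_⟩
          have k' : fn' (Fin.castSucc j') G := k
          rwa [f1] at k'
      · refine Or.inr (Or.inr (Or.inr ⟨?_, fun G H k => ?_⟩))
        · rw [Finset.mem_union, if_pos h]
          exact Or.inr (Finset.mem_singleton_self _)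
        · apply h'
          intro j hj
          have := k (Fin.castSucc j) (Finset.mem_map_of_mem Fin.castSuccEmb hj)
          rwa [f1] at this
    · rw [f1, i1]
      rcases C.gate i with h | h | h | ⟨h, h'⟩
      · exact Or.inl h
      · refine Or.inr (Or.inl fun G => ?_)
        rw [h]
        constructor
        · intro k j hj
          rw [Finset.mem_map] at hj
          obtain ⟨j', hj', rfl⟩ := hj
          show fn' (Fin.castSucc j') G
          rw [f1]
          exact k j' hj'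
        · intro k j hj
          have := k (Fin.castSucc j) (Finset.mem_map_of_mem Fin.castSuccEmb hj)
          rwa [f1] at this
      · refine Or.inr (Or.inr (Or.inl fun G => ?_))
        rw [h]
        constructor
        · rintro ⟨j, hj, k⟩
          refine ⟨Fin.castSucc j, Finset.mem_map_of_mem Fin.castSuccEmb hj, ?_⟩
          rw [f1]
          exact k
        · rintro ⟨j, hj, k⟩
          rw [Finset.mem_map] at hj
          obtain ⟨j', hj', rfl⟩ := hj
          refine ⟨j', hj', ?_⟩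
          have k' : fn' (Fin.castSucc j') G := k
          rwa [f1] at k'
      · refine Or.inr (Or.inr (Or.inr ⟨?_, fun G H k => ?_⟩))
        · rw [Finset.mem_union]
          exact Or.inl (Finset.mem_map_of_mem Fin.castSuccEmb h)
        · apply h'
          intro j hj
          have := k (Fin.castSucc j) (Finset.mem_map_of_mem Fin.castSuccEmb hj)
          rwa [f1] at this
  · refine (Finset.card_union_le _ _).trans ?_
    rw [Finset.card_map]
    by_cases he : e = 1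
    · rw [if_pos he, Finset.card_singleton, he]
    · rw [if_neg he, Finset.card_empty]
      omega
  · intro i hi
    rcases Finset.mem_union.1 hi with hi | hi
    · rw [Finset.mem_map] at hi
      obtain ⟨i', hi', rfl⟩ := hi
      show (ins' (Fin.castSucc i')).card ≤ 1
      rw [i1, Finset.card_map]
      exact h1 i' hi'
    · by_cases he : e = 1
      · rw [if_pos he, Finset.mem_singleton] at hi
        rw [hi]
        show (ins' (Fin.last s)).card ≤ 1
        rw [i2, Finset.card_map]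
        exact hI he
      · rw [if_neg he] at hi
        exact absurd hi (Finset.notMem_empty _)

/-- Programs are circuits. -/
theorem NProg.toCircuit {n : ℕ} {l : List (SimpleGraph (Fin n) → Prop)} {r : ℕ}
    (h : NProg (Adj n) l r) : ∃ C : Circuit n l.length, C.special.card ≤ r ∧
      (∀ i ∈ C.special, (C.ins i).card ≤ 1) ∧ ∀ f ∈ l, ∃ i, C.fn i = f := by
  classical
  induction h with
  | nil =>
    exact ⟨⟨fun i => i.elim0, fun i => i.elim0, ∅, fun i => i.elim0, fun i => i.elim0⟩, by simp,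
      fun i => i.elim0, fun f hf => absurd hf List.not_mem_nil⟩
  | @base l r g hg _ ih =>
    obtain ⟨C, h1, h2, h3⟩ := ih
    obtain ⟨u, v, rfl⟩ := hg
    obtain ⟨C', k1, k2, k3, k4⟩ := C.ext (fun G => G.Adj u v) ∅ 0
      (Or.inl ⟨u, v, fun G => Iff.rfl⟩) h2 (by simp)
    refine ⟨C', by omega, k4, ?_⟩
    intro f hf
    rcases List.mem_cons.1 hf with rfl | hf
    · exact ⟨Fin.last _, k2⟩
    · obtain ⟨i, hi⟩ := h3 f hf
      exact ⟨Fin.castSucc i, by rw [k1, hi]⟩
  | @and l r S hS _ ih =>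
    obtain ⟨C, h1, h2, h3⟩ := ih
    obtain ⟨C', k1, k2, k3, k4⟩ := C.ext (fun G => ∀ f ∈ S, f G)
      (univ.filter fun i => C.fn i ∈ S) 0 (Or.inr (Or.inl fun G => by
        constructor
        · intro h j hj
          exact h _ (Finset.mem_filter.1 hj).2
        · intro h f hf
          obtain ⟨i, hi⟩ := h3 f (hS f hf)
          rw [← hi]
          exact h i (Finset.mem_filter.2 ⟨Finset.mem_univ _, by rw [hi]; exact hf⟩))) h2 (by simp)
    refine ⟨C', by omega, k4, ?_⟩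
    intro f hf
    rcases List.mem_cons.1 hf with rfl | hf
    · exact ⟨Fin.last _, k2⟩
    · obtain ⟨i, hi⟩ := h3 f hf
      exact ⟨Fin.castSucc i, by rw [k1, hi]⟩
  | @or l r S hS _ ih =>
    obtain ⟨C, h1, h2, h3⟩ := ih
    obtain ⟨C', k1, k2, k3, k4⟩ := C.ext (fun G => ∃ f ∈ S, f G)
      (univ.filter fun i => C.fn i ∈ S) 0 (Or.inr (Or.inr (Or.inl fun G => by
        constructor
        · rintro ⟨f, hf, h⟩
          obtain ⟨i, hi⟩ := h3 f (hS f hf)
          refine ⟨i, Finset.mem_filter.2 ⟨Finset.mem_univ _, by rw [hi]; exact hf⟩, ?_⟩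
          rw [hi]
          exact h
        · rintro ⟨j, hj, h⟩
          exact ⟨_, (Finset.mem_filter.1 hj).2, h⟩))) h2 (by simp)
    refine ⟨C', by omega, k4, ?_⟩
    intro f hf
    rcases List.mem_cons.1 hf with rfl | hf
    · exact ⟨Fin.last _, k2⟩
    · obtain ⟨i, hi⟩ := h3 f hf
      exact ⟨Fin.castSucc i, by rw [k1, hi]⟩
  | @not l r f₀ hf₀ _ ih =>
    obtain ⟨C, h1, h2, h3⟩ := ih
    obtain ⟨i₀, hi₀⟩ := h3 f₀ hf₀
    obtain ⟨C', k1, k2, k3, k4⟩ := C.ext (fun G => ¬ f₀ G) {i₀} 1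
      (Or.inr (Or.inr (Or.inr ⟨rfl, fun G H h => by
        have := h i₀ (Finset.mem_singleton_self _)
        rw [hi₀] at this
        exact not_congr this⟩))) h2 (by simp)
    refine ⟨C', by omega, k4, ?_⟩
    intro f hf
    rcases List.mem_cons.1 hf with rfl | hf
    · exact ⟨Fin.last _, k2⟩
    · obtain ⟨i, hi⟩ := h3 f hf
      exact ⟨Fin.castSucc i, by rw [k1, hi]⟩

/-- Few NOT gates suffice for monotone graph properties. -/
theorem Circuit.few {n s : ℕ} (C : Circuit n s) (h1 : ∀ i ∈ C.special, (C.ins i).card ≤ 1)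
    (out : Fin s) {f : SimpleGraph (Fin n) → Prop} (hf : ∀ G H, G ≤ H → f G → f H)
    (hC : (∀ G, C.fn out G ↔ f G) ∨ (∀ G, C.fn out G ↔ ¬ f G))
    {D r : ℕ} (hD : 1 ≤ D) (hr : n.choose 2 < D * 2 ^ r) :
    ∃ (s' : ℕ) (C' : Circuit n s') (out' : Fin s'),
      s' ≤ 2 ^ 6 * D * s * (n.choose 2 + 1) ^ (D + 2) ∧ C'.special.card ≤ r ∧
      (∀ i ∈ C'.special, (C'.ins i).card ≤ 1) ∧ ∀ G, C'.fn out' G ↔ f G := by
  classical
  have hs : 0 < s := lt_of_le_of_lt (Nat.zero_le _) out.2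
  obtain ⟨l, g1, g2, g3⟩ := C.dual h1 s le_rfl
  obtain ⟨c, hc1, hc2⟩ : ∃ c ∈ l, ∀ X, c (lits X) ↔ f (ofSet X) := by
    obtain ⟨⟨p, hp, hp'⟩, ⟨q, hq, hq'⟩⟩ := g3 out out.2
    rcases hC with hC | hC
    · exact ⟨p, hp, fun X => (hp' X).trans (hC _)⟩
    · refine ⟨q, hq, fun X => (hq' X).trans ?_⟩
      rw [hC]
      exact not_not
  have hcm : ∀ Y Y', Y ⊆ Y' → c Y → c Y' := fun Y Y' hY =>
    g1.mono rfl (by
      rintro g ⟨k, rfl⟩ x y hxy hx
      exact hxy hx) c hc1 Y Y' hY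
  have hcomp : Comp (Inp (Edge n ⊕ Edge n)) {c} (2 * s) 0 := by
    refine ⟨l, g1, ?_, g2⟩
    rintro f' hf'
    rw [Set.mem_singleton_iff] at hf'
    rw [hf']
    exact hc1
  obtain ⟨r', hr', l', k1, k2, k3⟩ := few_neg hcomp hcm (f := fun X => f (ofSet X))
    (fun X Y hXY => hf _ _ (ofSet_mono hXY)) hc2 hD (by rw [card_Edge]; exact hr)
  have k4 := k1.comap (Base' := Adj n) (toSet (n := n)) (by
    rintro g ⟨i, rfl⟩
    obtain ⟨e, he⟩ := i
    induction e using Sym2.ind with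
    | _ u v =>
      refine ⟨u, v, ?_⟩
      funext G
      show (_ ∈ toSet G) = _
      rw [mem_toSet]
      rfl)
  obtain ⟨C', m1, m2, m3⟩ := k4.toCircuit
  obtain ⟨out', hout⟩ := m3 _ (List.mem_map_of_mem (f := fun g => fun x => g (toSet x))
    (k2 _ rfl))
  refine ⟨_, C', out', ?_, by omega, m2, fun G => ?_⟩
  · rw [List.length_map]
    refine k3.trans ?_
    rw [card_Edge]
    have e1 : 2 * s + 1 ≤ 4 * s := by omega
    calc 16 * (D * (2 * s + 1) * (n.choose 2 + 1) ^ (D + 2))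
        ≤ 16 * (D * (4 * s) * (n.choose 2 + 1) ^ (D + 2)) :=
          Nat.mul_le_mul_left _ (Nat.mul_le_mul_right _ (Nat.mul_le_mul_left _ e1))
      _ = 2 ^ 6 * D * s * (n.choose 2 + 1) ^ (D + 2) := by ring
  · rw [hout]
    show f (ofSet (toSet G)) ↔ f G
    rw [ofSet_toSet]

end Pool.Agent.H25.NP
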