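import Pool.Agent.H25.NP.Circ

/-!
The number of changes of the watched gates along a chain of graphs.
-/

namespace Pool.Agent.H25.NP

open Finset

variable {n s : ℕ}

/-- Selecting the steps with a change. -/
theorem exists_subchain (C : Circuit n s) (W : Finset (Fin s)) (x : ℕ → SimpleGraph (Fin n))
    (D : ℕ → Finset ℕ)
    (hD : ∀ J, D J = @Finset.filter _ (fun j => ∃ i ∈ W, ¬ (C.fn i (x j) ↔ C.fn i (x (j + 1))))
      (Classical.decPred _) (range J)) (J : ℕ) :
    ∃ g : ℕ → ℕ, Monotone g ∧ g (D J).card ≤ J ∧
      (∀ i ∈ W, (C.fn i (x (g (D J).card)) ↔ C.fn i (x J))) ∧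
      ∀ a < (D J).card, ∃ i ∈ W, ¬ (C.fn i (x (g a)) ↔ C.fn i (x (g (a + 1)))) := by
  classical
  induction J with
  | zero =>
    have h0 : D 0 = ∅ := by
      rw [hD]
      simp
    rw [h0, Finset.card_empty]
    exact ⟨fun _ => 0, fun _ _ _ => le_rfl, le_rfl, fun _ _ => Iff.rfl, fun a ha => by omega⟩
  | succ J ih =>
    obtain ⟨g, hg, h1, h2, h3⟩ := ih
    by_cases hJ : ∃ i ∈ W, ¬ (C.fn i (x J) ↔ C.fn i (x (J + 1)))
    · have hc : (D (J + 1)).card = (D J).card + 1 := by
        rw [hD, hD, Finset.range_add_one]
        have : @Finset.filter _ (fun j => ∃ i ∈ W, ¬ (C.fn i (x j) ↔ C.fn i (x (j + 1))))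
            (Classical.decPred _) (insert J (range J)) = insert J
            (@Finset.filter _ (fun j => ∃ i ∈ W, ¬ (C.fn i (x j) ↔ C.fn i (x (j + 1))))
            (Classical.decPred _) (range J)) := by
          ext j
          simp only [Finset.mem_filter, Finset.mem_insert]
          constructor
          · rintro ⟨h | h, h'⟩
            · exact Or.inl h
            · exact Or.inr ⟨h, h'⟩
          · rintro (h | ⟨h, h'⟩)
            · exact ⟨Or.inl h, by rw [h]; exact hJ⟩
            · exact ⟨Or.inr h, h'⟩
        rw [this, Finset.card_insert_of_notMem]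
        simp
      rw [hc]
      refine ⟨fun a => if a ≤ (D J).card then g a else J + 1, ?_, ?_, ?_, ?_⟩
      · intro a b hab
        show (if a ≤ (D J).card then g a else J + 1) ≤ (if b ≤ (D J).card then g b else J + 1)
        by_cases hb : b ≤ (D J).card
        · rw [if_pos hb, if_pos (hab.trans hb)]
          exact hg hab
        · rw [if_neg hb]
          by_cases ha : a ≤ (D J).card
          · rw [if_pos ha]
            have := (hg ha).trans h1
            omega
          · rw [if_neg ha]
      · show (if (D J).card + 1 ≤ (D J).card then g ((D J).card + 1) else J + 1) ≤ J + 1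
        rw [if_neg (by omega)]
      · intro i _
        show C.fn i (x (if (D J).card + 1 ≤ (D J).card then g ((D J).card + 1) else J + 1)) ↔ _
        rw [if_neg (by omega)]
      · intro a ha
        show ∃ i ∈ W, ¬ (C.fn i (x (if a ≤ (D J).card then g a else J + 1)) ↔
          C.fn i (x (if a + 1 ≤ (D J).card then g (a + 1) else J + 1)))
        rcases Nat.lt_succ_iff_lt_or_eq.1 ha with ha | ha
        · rw [if_pos (by omega), if_pos (by omega)]
          exact h3 a ha
        · rw [if_pos (by omega), if_neg (by omega), ha]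
          obtain ⟨i, hi, hne⟩ := hJ
          exact ⟨i, hi, fun h => hne ((h2 i hi).symm.trans h)⟩
    · have hc : D (J + 1) = D J := by
        rw [hD, hD, Finset.range_add_one]
        ext j
        simp only [Finset.mem_filter, Finset.mem_insert]
        constructor
        · rintro ⟨h | h, h'⟩
          · rw [h] at h'
            exact absurd h' hJ
          · exact ⟨h, h'⟩
        · rintro ⟨h, h'⟩
          exact ⟨Or.inr h, h'⟩
      rw [hc]
      refine ⟨g, hg, by omega, fun i hi => (h2 i hi).trans ?_, h3⟩
      by_contra hne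
      exact hJ ⟨i, hi, hne⟩

/-- Few special gates: few changes. -/
theorem changes_le_few (C : Circuit n s) {r t A : ℕ} (hr : C.special.card ≤ r)
    (ht : ∀ i ∈ C.special, (C.ins i).card ≤ t) {y : ℕ → SimpleGraph (Fin n)} (hy : Monotone y)
    (hA : ∀ a < A, ∃ i ∈ C.watched, ¬ (C.fn i (y a) ↔ C.fn i (y (a + 1)))) :
    A ≤ t * (2 ^ r - 1) := by
  classical
  rcases Nat.eq_zero_or_pos A with hA0 | hA0
  · rw [hA0]
    exact Nat.zero_le _
  have hne : Nonempty (Fin s) := by
    obtain ⟨i, _⟩ := hA 0 hA0
    exact ⟨i⟩
  -- the first gate that changes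
  have hmin : ∀ a < A, ∃ j ∈ C.watched, ¬ (C.fn j (y a) ↔ C.fn j (y (a + 1))) ∧
      ∀ i ∈ C.watched, i < j → (C.fn i (y a) ↔ C.fn i (y (a + 1))) := by
    intro a ha
    obtain ⟨i, hi, hne⟩ := hA a ha
    obtain ⟨j, hj, hjmin⟩ := Finset.exists_min_image
      (C.watched.filter fun i => ¬ (C.fn i (y a) ↔ C.fn i (y (a + 1)))) id
      ⟨i, Finset.mem_filter.2 ⟨hi, hne⟩⟩
    obtain ⟨hj1, hj2⟩ := Finset.mem_filter.1 hj
    refine ⟨j, hj1, hj2, fun i hi hij => ?_⟩
    by_contra hcon
    exact absurd (hjmin i (Finset.mem_filter.2 ⟨hi, hcon⟩)) (not_le.2 hij)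
  choose! j hj1 hj2 hj3 using hmin
  -- properties of the first change
  have hproper : ∀ a < A, j a ∉ C.proper := fun a ha h => hj2 a ha (C.special_eq h (hj3 a ha))
  have hspec : ∀ a < A, ∀ l ∈ C.proper, l ≤ j a → (C.fn l (y a) ↔ C.fn l (y (a + 1))) := by
    intro a ha l hl hlj
    exact C.special_eq hl fun i hi hil => hj3 a ha i hi (hil.trans_le hlj)
  have hup : ∀ a < A, ¬ C.fn (j a) (y a) ∧ C.fn (j a) (y (a + 1)) := by
    intro a ha
    have h1 := C.mono' (fun i => i ≤ j a) (fun i hi i' hi' => (C.lt i i' hi').le.trans hi)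
      (hy (Nat.le_succ a)) (hspec a ha) (j a) le_rfl
    have h2 := hj2 a ha
    tauto
  let T : Finset (Finset (Fin s) × Fin s) := C.special.biUnion fun l =>
    (C.special.filter fun x => x < l).powerset ×ˢ C.ins l
  have hT : T.card ≤ t * (2 ^ r - 1) := by
    have h1 : T.card ≤ ∑ l ∈ C.special, 2 ^ (C.special.filter fun x => x < l).card * t := by
      refine Finset.card_biUnion_le.trans (Finset.sum_le_sum fun l hl => ?_)
      rw [Finset.card_product, Finset.card_powerset]
      exact Nat.mul_le_mul_left _ (ht l hl)
    rw [← Finset.sum_mul] at h1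
    have h2 := sum_two_pow C.special
    have h3 : 2 ^ C.special.card ≤ 2 ^ r := Nat.pow_le_pow_right (by norm_num) hr
    calc T.card ≤ (∑ l ∈ C.special, 2 ^ (C.special.filter fun x => x < l).card) * t := h1
      _ ≤ (2 ^ r - 1) * t := Nat.mul_le_mul_right _ (by omega)
      _ = t * (2 ^ r - 1) := mul_comm _ _
  refine le_trans ?_ hT
  have h1 : A = (range A).card := (Finset.card_range A).symm
  rw [h1]
  refine Finset.card_le_card_of_injOn
    (fun a => (C.special.filter fun l => l < j a ∧ C.fn l (y a), j a)) ?_ ?_
  · intro a ha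
    have ha' := Finset.mem_range.1 (Finset.mem_coe.1 ha)
    obtain ⟨l, hl, hjl⟩ := Finset.mem_biUnion.1 (hj1 a ha')
    refine Finset.mem_coe.2 (Finset.mem_biUnion.2 ⟨l, hl, Finset.mem_product.2
      ⟨Finset.mem_powerset.2 fun x hx => ?_, hjl⟩⟩)
    obtain ⟨hx1, hx2⟩ := Finset.mem_filter.1 hx
    exact Finset.mem_filter.2 ⟨hx1, hx2.1.trans (C.lt l _ hjl)⟩
  · -- injectivity
    have key : ∀ a b, a < A → b < A → a < b → (C.special.filter fun l => l < j a ∧ C.fn l (y a)) =
        (C.special.filter fun l => l < j b ∧ C.fn l (y b)) → j a = j b → False := by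
      intro a b ha hb hab h1 h2
      have h3 : ∀ l ∈ C.proper, l ≤ j a → (C.fn l (y (a + 1)) ↔ C.fn l (y b)) := by
        intro l hl hlj
        have hlt : l < j a := by
          rcases lt_or_eq_of_le hlj with h | h
          · exact h
          · rw [h] at hl
            exact absurd hl (hproper a ha)
        rw [← hspec a ha l hl hlj]
        have h4 : l ∈ (C.special.filter fun l => l < j a ∧ C.fn l (y a)) ↔
            l ∈ (C.special.filter fun l => l < j b ∧ C.fn l (y b)) := by rw [h1]
        rw [Finset.mem_filter, Finset.mem_filter] at h4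
        have h5 := (Circuit.mem_proper.1 hl).1
        have h6 : l < j b := h2 ▸ hlt
        constructor
        · intro h
          exact (h4.1 ⟨h5, hlt, h⟩).2.2
        · intro h
          exact (h4.2 ⟨h5, h6, h⟩).2.2
      have h4 := C.mono' (fun i => i ≤ j a) (fun i hi i' hi' => (C.lt i i' hi').le.trans hi)
        (hy (show a + 1 ≤ b by omega)) h3 (j a) le_rfl (hup a ha).2
      rw [h2] at h4
      exact (hup b hb).1 h4
    intro a ha b hb hab
    have ha' := Finset.mem_range.1 (Finset.mem_coe.1 ha)
    have hb' := Finset.mem_range.1 (Finset.mem_coe.1 hb)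
    have h1 := Prod.ext_iff.1 hab
    simp only at h1
    rcases lt_trichotomy a b with h | h | h
    · exact (key a b ha' hb' h h1.1 h1.2).elim
    · exact h
    · exact (key b a hb' ha' h h1.1.symm h1.2.symm).elim

/-- Levels of nesting: few changes. -/
theorem changes_le_levels (C : Circuit n s) (lev : Fin s → ℕ)
    (hlev : ∀ i, ∀ j ∈ C.ins i, lev j ≤ lev i)
    (hlev' : ∀ i ∈ C.special, ∀ j ∈ C.ins i, lev j < lev i) {d A : ℕ}
    (hd : ∀ j ∈ C.watched, lev j < d) {y : ℕ → SimpleGraph (Fin n)} (hy : Monotone y)
    (hA : ∀ a < A, ∃ i ∈ C.watched, ¬ (C.fn i (y a) ↔ C.fn i (y (a + 1)))) :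
    A + 1 ≤ ∏ a ∈ range d, (1 + (C.watched.filter fun j => lev j = a).card) := by
  classical
  rcases Nat.eq_zero_or_pos A with hA0 | hA0
  · rw [hA0]
    exact Nat.succ_le_of_lt (Finset.prod_pos fun a _ => by omega)
  have hne : Nonempty (Fin s) := by
    obtain ⟨i, _⟩ := hA 0 hA0
    exact ⟨i⟩
  let D : ℕ → Finset ℕ := fun c => (range A).filter fun a =>
    ∃ i ∈ C.watched, lev i < c ∧ ¬ (C.fn i (y a) ↔ C.fn i (y (a + 1)))
  have hmem : ∀ c a, a ∈ D c ↔ a < A ∧
      ∃ i ∈ C.watched, lev i < c ∧ ¬ (C.fn i (y a) ↔ C.fn i (y (a + 1))) := by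
    intro c a
    show a ∈ (range A).filter _ ↔ _
    rw [Finset.mem_filter, Finset.mem_range]
  suffices H : ∀ c, (D c).card + 1 ≤
      ∏ a ∈ range c, (1 + (C.watched.filter fun j => lev j = a).card) by
    have h1 : D d = range A := by
      ext a
      rw [hmem, Finset.mem_range]
      constructor
      · exact fun h => h.1
      · intro ha
        obtain ⟨i, hi, hne⟩ := hA a ha
        exact ⟨ha, i, hi, hd i hi, hne⟩
    have h2 := H d
    rwa [h1, Finset.card_range] at h2
  intro c
  induction c with
  | zero =>
    have h0 : D 0 = ∅ := by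
      ext a
      rw [hmem]
      constructor
      · rintro ⟨_, i, _, h, _⟩
        omega
      · intro h
        exact absurd h (Finset.notMem_empty a)
    rw [h0]
    simp
  | succ c ih =>
    rw [Finset.prod_range_succ]
    set w : ℕ := (C.watched.filter fun j => lev j = c).card with hw
    -- steps at which a gate of level c is the first to change
    let E : Finset ℕ := (range A).filter fun a => a ∉ D c ∧
      ∃ i ∈ C.watched, lev i = c ∧ ¬ (C.fn i (y a) ↔ C.fn i (y (a + 1)))
    have hE : ∀ a ∈ E, a < A ∧ a ∉ D c ∧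
        ∃ i ∈ C.watched, lev i = c ∧ ¬ (C.fn i (y a) ↔ C.fn i (y (a + 1))) := by
      intro a ha
      have := Finset.mem_filter.1 ha
      exact ⟨Finset.mem_range.1 this.1, this.2⟩
    have hsub : D (c + 1) ⊆ D c ∪ E := by
      intro a ha
      rw [hmem] at ha
      obtain ⟨haA, i, hi, hlt, hne⟩ := ha
      rw [Finset.mem_union]
      by_cases h : a ∈ D c
      · exact Or.inl h
      · right
        refine Finset.mem_filter.2 ⟨Finset.mem_range.2 haA, h, i, hi, ?_, hne⟩
        by_contra hcon
        exact h ((hmem c a).2 ⟨haA, i, hi, by omega, hne⟩)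
    choose! j hj1 hj2 hj3 using fun a ha => (hE a ha).2.2
    -- no change of lower levels: special gates of level at most c keep their values
    have hstay : ∀ a b, a ≤ b → b ≤ A → (∀ e, a ≤ e → e < b → e ∉ D c) →
        ∀ l ∈ C.proper, lev l ≤ c → (C.fn l (y a) ↔ C.fn l (y b)) := by
      intro a b hab hbA hnot l hl hlc
      refine C.proper_spec hl _ _ fun i hi => ?_
      have hlsp := (Circuit.mem_proper.1 hl).1
      have hilt := hlev' l hlsp i hi
      have hiw := C.ins_subset hlsp hi
      have hic : lev i < c := by omega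
      clear hl hlc
      induction b, hab using Nat.le_induction with
      | base => exact Iff.rfl
      | succ b hab ih =>
        refine (ih (by omega) fun e h1 h2 => hnot e h1 (by omega)).trans ?_
        by_contra hne
        exact hnot b hab (Nat.lt_succ_self b) ((hmem c b).2 ⟨by omega, i, hiw, by omega, hne⟩)
    have hup : ∀ a ∈ E, ¬ C.fn (j a) (y a) ∧ C.fn (j a) (y (a + 1)) := by
      intro a ha
      obtain ⟨haA, haD, _⟩ := hE a ha
      have h1 := C.mono' (fun i => lev i ≤ c) (fun i hi i' hi' => (hlev i i' hi').trans hi)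
        (hy (Nat.le_succ a))
        (hstay a (a + 1) (Nat.le_succ a) haA fun e h1 h2 => by
          have : e = a := by omega
          rw [this]
          exact haD) (j a) (hj2 a ha).le
      have h2 := hj3 a ha
      tauto
    have hEc : E.card ≤ ((D c).card + 1) * w := by
      have h1 : ((range ((D c).card + 1)) ×ˢ (C.watched.filter fun j => lev j = c)).card =
          ((D c).card + 1) * w := by
        rw [Finset.card_product, Finset.card_range]
      rw [← h1]
      refine Finset.card_le_card_of_injOn (fun a => (((D c).filter fun e => e < a).card, j a)) ?_ ?_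
      · intro a ha
        have ha' := Finset.mem_coe.1 ha
        refine Finset.mem_coe.2 (Finset.mem_product.2 ⟨Finset.mem_range.2 ?_,
          Finset.mem_filter.2 ⟨hj1 a ha', hj2 a ha'⟩⟩)
        have := Finset.card_filter_le (D c) fun e => e < a
        show ((D c).filter fun e => e < a).card < _
        omega
      · have key : ∀ a ∈ E, ∀ b ∈ E, a < b →
            ((D c).filter fun e => e < a).card = ((D c).filter fun e => e < b).card →
            j a = j b → False := by
          intro a ha b hb hab h1 h2
          have hsub' : ((D c).filter fun e => e < a) ⊆ ((D c).filter fun e => e < b) := by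
            intro e he
            obtain ⟨he1, he2⟩ := Finset.mem_filter.1 he
            exact Finset.mem_filter.2 ⟨he1, he2.trans hab⟩
          have heq := Finset.eq_of_subset_of_card_le hsub' h1.ge
          have hnot : ∀ e, a ≤ e → e < b → e ∉ D c := by
            intro e h3 h4 h5
            have h6 : e ∈ ((D c).filter fun e => e < b) := Finset.mem_filter.2 ⟨h5, h4⟩
            rw [← heq] at h6
            have := (Finset.mem_filter.1 h6).2
            omega
          have hbA := (hE b hb).1
          have h7 := C.mono' (fun i => lev i ≤ c) (fun i hi i' hi' => (hlev i i' hi').trans hi)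
            (hy (show a + 1 ≤ b by omega))
            (hstay (a + 1) b (by omega) hbA.le fun e h3 h4 => hnot e (by omega) h4)
            (j a) (hj2 a ha).le (hup a ha).2
          rw [h2] at h7
          exact (hup b hb).1 h7
        intro a ha b hb hab
        have ha' := Finset.mem_coe.1 ha
        have hb' := Finset.mem_coe.1 hb
        have h1 := Prod.ext_iff.1 hab
        simp only at h1
        rcases lt_trichotomy a b with h | h | h
        · exact (key a ha' b hb' h h1.1 h1.2).elim
        · exact h
        · exact (key b hb' a ha' h h1.1.symm h1.2.symm).elim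
    have h1 := (Finset.card_le_card hsub).trans (Finset.card_union_le _ _)
    calc (D (c + 1)).card + 1 ≤ (D c).card + ((D c).card + 1) * w + 1 := by omega
      _ = ((D c).card + 1) * (1 + w) := by ring
      _ ≤ _ := Nat.mul_le_mul_right _ ih

end Pool.Agent.H25.NP
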