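import Pool.Agent.H25.NM.Moment

/-!
Closed families for dense random graphs (every edge is absent with probability `1/Q`) have few
minimal members.
-/

namespace Pool.Agent.H25.NP

open Finset
open Pool.Agent.H25.NM

set_option linter.unusedSectionVars false

theorem two_choose_two (b : ℕ) : 2 * b.choose 2 = b * (b - 1) := by
  rw [Nat.choose_two_right, Nat.mul_div_cancel']
  rcases Nat.even_or_odd b with h | h
  · exact Dvd.dvd.mul_right h.two_dvd _
  · obtain ⟨c, rfl⟩ := h
    exact Dvd.dvd.mul_left (by simp) _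

/-- The nonzero labels. -/
def nz (Q : ℕ) [NeZero Q] : Finset (Fin Q) := univ.filter fun x => x ≠ 0

theorem card_nz (Q : ℕ) [NeZero Q] : (nz Q).card = Q - 1 := by
  unfold nz
  rw [Finset.filter_ne', Finset.card_erase_of_mem (Finset.mem_univ _), Finset.card_univ,
    Fintype.card_fin]

section

variable {V : Type} [Fintype V] [DecidableEq V]

/-- One petal is incomplete with probability at most one half. -/
theorem petal (Q : ℕ) [NeZero Q] (E : Finset (Sym2 V)) (hE : 2 * E.card ≤ Q) :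
    2 * nc (fun ω : Sym2 V → Fin Q => ∃ e ∈ E, ω e = 0) ≤ Fintype.card (Sym2 V → Fin Q) := by
  classical
  have hQ : 0 < Q := Nat.pos_of_ne_zero (NeZero.ne Q)
  have h1 : ∀ e ∈ E, nc (fun ω : Sym2 V → Fin Q => ω e = 0) * Q =
      Fintype.card (Sym2 V → Fin Q) := by
    intro e _
    have h2 := nc_forall_eq (A := Fin Q) ({e} : Finset (Sym2 V)) fun _ => 0
    rw [Finset.card_singleton, pow_one, Fintype.card_fin] at h2
    rw [Fintype.card_fun, Fintype.card_fin, ← h2]
    refine congrArg (· * Q) (nc_congr fun x => ?_)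
    simp
  have h2 : nc (fun ω : Sym2 V → Fin Q => ∃ e ∈ E, ω e = 0) * Q ≤
      E.card * Fintype.card (Sym2 V → Fin Q) := by
    calc nc (fun ω : Sym2 V → Fin Q => ∃ e ∈ E, ω e = 0) * Q
        ≤ (∑ e ∈ E, nc (fun ω : Sym2 V → Fin Q => ω e = 0)) * Q :=
          Nat.mul_le_mul_right _ (nc_bex_le E fun e (ω : Sym2 V → Fin Q) => ω e = 0)
      _ = ∑ e ∈ E, Fintype.card (Sym2 V → Fin Q) := by
          rw [Finset.sum_mul]
          exact Finset.sum_congr rfl h1
      _ = _ := by
          rw [Finset.sum_const, smul_eq_mul]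
  refine Nat.le_of_mul_le_mul_right ?_ hQ
  calc 2 * nc (fun ω : Sym2 V → Fin Q => ∃ e ∈ E, ω e = 0) * Q
      = 2 * (nc (fun ω : Sym2 V → Fin Q => ∃ e ∈ E, ω e = 0) * Q) := by ring
    _ ≤ 2 * (E.card * Fintype.card (Sym2 V → Fin Q)) := Nat.mul_le_mul_left _ h2
    _ = 2 * E.card * Fintype.card (Sym2 V → Fin Q) := by ring
    _ ≤ Q * Fintype.card (Sym2 V → Fin Q) := Nat.mul_le_mul_right _ hE
    _ = Fintype.card (Sym2 V → Fin Q) * Q := mul_comm _ _

/-- Disjoint petals are independent. -/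
theorem petals {ι : Type} (Q : ℕ) [NeZero Q] (Fm : Finset ι) (E : ι → Finset (Sym2 V))
    (hE : ∀ i ∈ Fm, 2 * (E i).card ≤ Q)
    (hdisj : ∀ i ∈ Fm, ∀ j ∈ Fm, i ≠ j → Disjoint (E i) (E j)) :
    2 ^ Fm.card * nc (fun ω : Sym2 V → Fin Q => ∀ i ∈ Fm, ∃ e ∈ E i, ω e = 0) ≤
      Fintype.card (Sym2 V → Fin Q) := by
  classical
  induction Fm using Finset.induction_on with
  | empty =>
    rw [Finset.card_empty, pow_zero, one_mul]
    exact nc_le_card _
  | insert a s ha ih =>
    have ih' := ih (fun i hi => hE i (Finset.mem_insert_of_mem hi))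
      fun i hi j hj => hdisj i (Finset.mem_insert_of_mem hi) j (Finset.mem_insert_of_mem hj)
    have h1 := petal Q (E a) (hE a (Finset.mem_insert_self _ _))
    have hK : 0 < Fintype.card (Sym2 V → Fin Q) := Fintype.card_pos
    have h2 := card_inter_mul (E a)
      (fun ω : Sym2 V → Fin Q => ∃ e ∈ E a, ω e = 0)
      (fun ω : Sym2 V → Fin Q => ∀ i ∈ s, ∃ e ∈ E i, ω e = 0)
      (by
        intro x y hxy
        constructor
        · rintro ⟨e, he, h⟩
          exact ⟨e, he, by rw [← hxy e he]; exact h⟩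
        · rintro ⟨e, he, h⟩
          exact ⟨e, he, by rw [hxy e he]; exact h⟩)
      (by
        intro x y hxy
        have hne : ∀ i ∈ s, ∀ e ∈ E i, e ∉ E a := by
          intro i hi e he he'
          have hd := hdisj i (Finset.mem_insert_of_mem hi) a (Finset.mem_insert_self _ _)
            (by
              rintro rfl
              exact ha hi)
          exact Finset.disjoint_left.1 hd he he'
        constructor
        · intro h i hi
          obtain ⟨e, he, h'⟩ := h i hi
          exact ⟨e, he, by rw [← hxy e (hne i hi e he)]; exact h'⟩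
        · intro h i hi
          obtain ⟨e, he, h'⟩ := h i hi
          exact ⟨e, he, by rw [hxy e (hne i hi e he)]; exact h'⟩)
    rw [← nc_eq, ← nc_eq, ← nc_eq] at h2
    have h3 : nc (fun ω : Sym2 V → Fin Q => ∀ i ∈ insert a s, ∃ e ∈ E i, ω e = 0) =
        nc (fun ω : Sym2 V → Fin Q => (∃ e ∈ E a, ω e = 0) ∧
          ∀ i ∈ s, ∃ e ∈ E i, ω e = 0) := by
      refine nc_congr fun ω => ?_
      rw [Finset.forall_mem_insert]
    rw [h3, Finset.card_insert_of_notMem ha]
    refine Nat.le_of_mul_le_mul_right ?_ hK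
    calc 2 ^ (s.card + 1) * nc (fun ω : Sym2 V → Fin Q => (∃ e ∈ E a, ω e = 0) ∧
          ∀ i ∈ s, ∃ e ∈ E i, ω e = 0) * Fintype.card (Sym2 V → Fin Q)
        = (2 * nc (fun ω : Sym2 V → Fin Q => ∃ e ∈ E a, ω e = 0)) *
          (2 ^ s.card * nc (fun ω : Sym2 V → Fin Q => ∀ i ∈ s, ∃ e ∈ E i, ω e = 0)) := by
          rw [mul_assoc, h2, pow_succ]
          ring
      _ ≤ Fintype.card (Sym2 V → Fin Q) * Fintype.card (Sym2 V → Fin Q) := Nat.mul_le_mul h1 ih'

/-- Many sets with small links contain a sunflower. -/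
theorem greedy (Fm : Finset (Finset V)) (B : Finset V) {b h X : ℕ} (hB : B.card < b)
    (hF : ∀ T ∈ Fm, T.card = b ∧ B ⊆ T)
    (hmax : ∀ v ∉ B, (Fm.filter fun T => insert v B ⊆ T).card ≤ X)
    (hbig : h * b * X < Fm.card) :
    ∀ g ≤ h, ∃ Tm ⊆ Fm, Tm.card = g ∧ ∀ T ∈ Tm, ∀ T' ∈ Tm, T ≠ T' → T ∩ T' = B := by
  classical
  intro g
  induction g with
  | zero =>
    intro _
    exact ⟨∅, Finset.empty_subset _, rfl, fun T hT => absurd hT (Finset.notMem_empty T)⟩
  | succ g ih =>
    intro hg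
    obtain ⟨Tm, h1, h2, h3⟩ := ih (by omega)
    set W : Finset V := Tm.biUnion id \ B with hW
    have hWc : W.card ≤ g * b := by
      refine (Finset.card_le_card Finset.sdiff_subset).trans ?_
      rw [← h2]
      exact Finset.card_biUnion_le_card_mul _ _ _ fun T hT => (hF T (h1 hT)).1.le
    obtain ⟨T, hT, hTW⟩ : ∃ T ∈ Fm, ∀ v ∈ W, v ∉ T := by
      by_contra hcon
      push Not at hcon
      have h4 : Fm ⊆ W.biUnion fun v => Fm.filter fun T => insert v B ⊆ T := by
        intro T hT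
        obtain ⟨v, hv, hvT⟩ := hcon T hT
        refine Finset.mem_biUnion.2 ⟨v, hv, Finset.mem_filter.2 ⟨hT, ?_⟩⟩
        intro x hx
        rcases Finset.mem_insert.1 hx with rfl | hx
        · exact hvT
        · exact (hF T hT).2 hx
      have h5 : Fm.card ≤ W.card * X :=
        (Finset.card_le_card h4).trans (Finset.card_biUnion_le_card_mul _ _ _ fun v hv =>
          hmax v (Finset.mem_sdiff.1 hv).2)
      have h6 : W.card * X ≤ h * b * X :=
        Nat.mul_le_mul_right _ (hWc.trans (Nat.mul_le_mul_right _ (by omega)))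
      omega
    have hnew : ∀ T' ∈ Tm, T ∩ T' = B := by
      intro T' hT'
      refine Finset.Subset.antisymm ?_ (Finset.subset_inter (hF T hT).2 (hF T' (h1 hT')).2)
      intro x hx
      by_contra hxB
      obtain ⟨hx1, hx2⟩ := Finset.mem_inter.1 hx
      exact hTW x (Finset.mem_sdiff.2 ⟨Finset.mem_biUnion.2 ⟨T', hT', hx2⟩, hxB⟩) hx1
    have hTn : T ∉ Tm := by
      intro hTm
      have h4 := hnew T hTm
      rw [Finset.inter_self] at h4
      have h5 := (hF T hT).1
      rw [h4] at h5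
      omega
    refine ⟨insert T Tm, ?_, ?_, ?_⟩
    · intro x hx
      rcases Finset.mem_insert.1 hx with rfl | hx
      · exact hT
      · exact h1 hx
    · rw [Finset.card_insert_of_notMem hTn, h2]
    · intro T₁ hT₁ T₂ hT₂ hne
      rcases Finset.mem_insert.1 hT₁ with e1 | hT₁
      · rcases Finset.mem_insert.1 hT₂ with e2 | hT₂
        · exact absurd (e1.trans e2.symm) hne
        · rw [e1]
          exact hnew T₂ hT₂
      · rcases Finset.mem_insert.1 hT₂ with e2 | hT₂
        · rw [e2, Finset.inter_comm]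
          exact hnew T₁ hT₁
        · exact h3 T₁ hT₁ T₂ hT₂ hne

/-- **Few minimal members above a given set, dense case.** -/
theorem card_mins_dense (Q m h : ℕ) [NeZero Q] (hm : 1 ≤ m) (hh : 1 ≤ h) (hQ : m * m ≤ Q)
    (S : Finset (Finset V))
    (hS : Closed (gr (nz Q) : (Sym2 V → Fin Q) → SimpleGraph V) (2 ^ h) m S)
    (b : ℕ) (hb : b ≤ m) (I : Finset V) :
    ((mins S b).filter fun T => I ⊆ T).card ≤ (h * m) ^ (b - I.card) := by
  classical
  by_contra hcon
  push Not at hcon
  have hΛ : 1 ≤ h * m := Nat.one_le_iff_ne_zero.2 (Nat.mul_ne_zero (by omega) (by omega))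
  let lk : Finset V → Finset (Finset V) := fun B => (mins S b).filter fun T => B ⊆ T
  let 𝓑 : Finset (Finset V) := univ.filter fun B => B.card ≤ b ∧
    (h * m) ^ (b - B.card) < (lk B).card
  have hI : I.card ≤ b := by
    obtain ⟨T, hT⟩ := Finset.card_pos.1 (lt_of_le_of_lt (Nat.zero_le _) hcon)
    obtain ⟨h3, h4⟩ := Finset.mem_filter.1 hT
    rw [← (mem_mins.1 h3).2.1]
    exact Finset.card_le_card h4
  have h𝓑 : 𝓑.Nonempty := ⟨I, Finset.mem_filter.2 ⟨Finset.mem_univ _, hI, hcon⟩⟩
  obtain ⟨B, hB, hBmax⟩ := Finset.exists_max_image 𝓑 Finset.card h𝓑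
  obtain ⟨_, hBb, hbig⟩ := Finset.mem_filter.1 hB
  have hF : ∀ T ∈ lk B, T.card = b ∧ B ⊆ T := by
    intro T hT
    obtain ⟨h1, h2⟩ := Finset.mem_filter.1 hT
    exact ⟨(mem_mins.1 h1).2.1, h2⟩
  have hBlt : B.card < b := by
    rcases lt_or_eq_of_le hBb with h' | h'
    · exact h'
    · exfalso
      rw [h', Nat.sub_self, pow_zero] at hbig
      have h1 : (lk B).card ≤ 1 := by
        rw [Finset.card_le_one]
        intro T hT T' hT'
        have e1 := Finset.eq_of_subset_of_card_le (hF T hT).2 (by rw [(hF T hT).1, h'])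
        have e2 := Finset.eq_of_subset_of_card_le (hF T' hT').2 (by rw [(hF T' hT').1, h'])
        rw [← e1, ← e2]
      omega
  have hmax : ∀ v ∉ B, ((lk B).filter fun T => insert v B ⊆ T).card ≤
      (h * m) ^ (b - B.card - 1) := by
    intro v hv
    by_contra hcon'
    push Not at hcon'
    have hc : (insert v B).card = B.card + 1 := Finset.card_insert_of_notMem hv
    have h1 : ((lk B).filter fun T => insert v B ⊆ T) ⊆ lk (insert v B) := by
      intro T hT
      obtain ⟨h1, h2⟩ := Finset.mem_filter.1 hT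
      exact Finset.mem_filter.2 ⟨(Finset.mem_filter.1 h1).1, h2⟩
    have h3 : insert v B ∈ 𝓑 := by
      refine Finset.mem_filter.2 ⟨Finset.mem_univ _, by omega, ?_⟩
      rw [hc, ← Nat.sub_sub]
      exact hcon'.trans_le (Finset.card_le_card h1)
    have h4 := hBmax _ h3
    omega
  have hbig' : h * b * (h * m) ^ (b - B.card - 1) < (lk B).card := by
    refine lt_of_le_of_lt ?_ hbig
    have e : b - B.card = (b - B.card - 1) + 1 := by omega
    calc h * b * (h * m) ^ (b - B.card - 1) ≤ h * m * (h * m) ^ (b - B.card - 1) :=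
          Nat.mul_le_mul_right _ (Nat.mul_le_mul_left _ hb)
      _ = (h * m) ^ (b - B.card - 1 + 1) := by
          rw [pow_succ]
          ring
      _ = (h * m) ^ (b - B.card) := by rw [← e]
  obtain ⟨Tm, hTm1, hTm2, hTm3⟩ := greedy (lk B) B hBlt hF hmax hbig' h le_rfl
  have hBS : B ∈ S := by
    refine hS.2 B (by omega) ?_
    have h1 : nc (fun ω : Sym2 V → Fin Q => ¬ D S (gr (nz Q) ω ⊔ cq B)) ≤
        nc (fun ω : Sym2 V → Fin Q => ∀ T ∈ Tm, ∃ e ∈ ed T \ ed B, ω e = 0) := by
      refine nc_mono fun ω hω T hT => ?_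
      by_contra hcon'
      push Not at hcon'
      refine hω ⟨T, (mem_mins.1 (Finset.mem_filter.1 (hTm1 hT)).1).1, ?_⟩
      intro u v huv
      rw [SimpleGraph.sup_adj]
      by_cases hB2 : u ∈ B ∧ v ∈ B
      · exact Or.inr ⟨huv.1, hB2.1, hB2.2⟩
      · left
        refine ⟨huv.1, Finset.mem_filter.2 ⟨Finset.mem_univ _, ?_⟩⟩
        refine hcon' s(u, v) (Finset.mem_sdiff.2 ⟨mem_ed.2 huv, fun h' => hB2 ?_⟩)
        exact (mem_ed.1 h').2
    have h2 := petals Q Tm (fun T => ed T \ ed B)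
      (by
        intro T hT
        have h3 : (ed T \ ed B).card ≤ b.choose 2 := by
          refine (Finset.card_le_card Finset.sdiff_subset).trans ?_
          rw [card_ed, (hF T (hTm1 hT)).1]
        have h4 := two_choose_two b
        have h5 : b * (b - 1) ≤ m * m := Nat.mul_le_mul hb (by omega)
        omega)
      (by
        intro T hT T' hT' hne
        rw [Finset.disjoint_left]
        intro e he he'
        have h3 : e ∈ ed T ∩ ed T' :=
          Finset.mem_inter.2 ⟨(Finset.mem_sdiff.1 he).1, (Finset.mem_sdiff.1 he').1⟩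
        rw [ed_inter, hTm3 T hT T' hT' hne] at h3
        exact (Finset.mem_sdiff.1 he).2 h3)
    rw [hTm2] at h2
    exact (Nat.mul_le_mul_left _ h1).trans h2
  -- contradiction with minimality
  have hne : (lk B).Nonempty := by
    rw [← Finset.card_pos]
    omega
  obtain ⟨T, hT⟩ := hne
  have hTm := (mem_mins.1 (Finset.mem_filter.1 hT).1).2
  have hBT : B = T := hTm.2 B hBS (hF T hT).2
  rw [hBT, hTm.1] at hBlt
  exact lt_irrefl _ hBlt

end

/-- The dense test graphs satisfy the hypotheses of the block lemma. -/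
theorem blockHyp_dense {k w Q : ℕ} [NeZero Q] (m h : ℕ) (hm : 1 ≤ m) (hh : 1 ≤ h)
    (hQ : m * m ≤ Q) (hw : 32 * (h * m) ≤ w) :
    BlockHyp (gr (nz Q) : (Sym2 (Fin k × Fin w) → Fin Q) →
      SimpleGraph (Fin k × Fin w)) (tr : (Fin k → Fin w) → Finset (Fin k × Fin w)) (2 ^ h)
      m w (fun b i => ((h * m : ℕ) : ℝ) ^ (b - i)) ((1 / 32 : ℝ) ^ (m + 1)) where
  hM := by positivity
  hw := by
    have : 1 ≤ h * m := Nat.one_le_iff_ne_zero.2 (Nat.mul_ne_zero (by omega) (by omega))
    omega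
  hη := by positivity
  hP := fun T => by exact_mod_cast nc_subset_tr T
  hN := fun S hS b hb I => by
    have h1 := card_mins_dense Q m h hm hh hQ S hS b hb I
    have h2 : (((mins S b).filter fun T => I ⊆ T).card : ℝ) ≤
        ((h * m : ℕ) : ℝ) ^ (b - I.card) := by exact_mod_cast h1
    refine le_trans ?_ h2
    refine Nat.cast_le.2 (Finset.card_le_card fun T hT => ?_)
    simp only [Finset.mem_filter] at hT ⊢
    exact hT
  hQ := by
    intro T hT1 hTm
    have h1 := petal Q (ed T) (by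
      rw [card_ed]
      have h4 := two_choose_two T.card
      have h5 : T.card * (T.card - 1) ≤ m * m := Nat.mul_le_mul hTm (by omega)
      omega)
    have h2 := nc_add_nc_not fun ω : Sym2 (Fin k × Fin w) → Fin Q => ∃ e ∈ ed T, ω e = 0
    have h3 : nc (fun ω : Sym2 (Fin k × Fin w) → Fin Q => ¬ ∃ e ∈ ed T, ω e = 0) ≤
        nc (fun ω : Sym2 (Fin k × Fin w) → Fin Q => cq T ≤ gr (nz Q) ω) := by
      refine nc_mono fun ω hω u v huv => ?_
      refine ⟨huv.1, Finset.mem_filter.2 ⟨Finset.mem_univ _, fun h0 => hω ?_⟩⟩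
      exact ⟨s(u, v), mem_ed.2 huv, h0⟩
    have h4 : Fintype.card (Sym2 (Fin k × Fin w) → Fin Q) ≤
        2 * nc (fun ω : Sym2 (Fin k × Fin w) → Fin Q => cq T ≤ gr (nz Q) ω) := by omega
    have h5 : (h * m) ^ T.card * 2 ^ T.card * 2 ≤ w ^ T.card := by
      calc (h * m) ^ T.card * 2 ^ T.card * 2 ≤ (h * m) ^ T.card * 2 ^ T.card * 16 ^ T.card := by
            refine Nat.mul_le_mul_left _ ?_
            calc 2 ≤ 16 ^ 1 := by norm_num
              _ ≤ 16 ^ T.card := Nat.pow_le_pow_right (by norm_num) hT1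
        _ = (32 * (h * m)) ^ T.card := by
            rw [← mul_pow, ← mul_pow]
            congr 1
            ring
        _ ≤ w ^ T.card := Nat.pow_le_pow_left hw _
    rw [Nat.sub_zero]
    have h6 : (h * m) ^ T.card * 2 ^ T.card * Fintype.card (Sym2 (Fin k × Fin w) → Fin Q) ≤
        w ^ T.card * nc (fun ω : Sym2 (Fin k × Fin w) → Fin Q => cq T ≤ gr (nz Q) ω) := by
      calc (h * m) ^ T.card * 2 ^ T.card * Fintype.card (Sym2 (Fin k × Fin w) → Fin Q)
          ≤ (h * m) ^ T.card * 2 ^ T.card *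
            (2 * nc (fun ω : Sym2 (Fin k × Fin w) → Fin Q => cq T ≤ gr (nz Q) ω)) :=
            Nat.mul_le_mul_left _ h4
        _ = (h * m) ^ T.card * 2 ^ T.card * 2 *
            nc (fun ω : Sym2 (Fin k × Fin w) → Fin Q => cq T ≤ gr (nz Q) ω) := by ring
        _ ≤ _ := Nat.mul_le_mul_right _ h5
    exact_mod_cast h6
  hE := by
    intro a ha j hj i hia hij hlt
    have hw0 : (0 : ℝ) ≤ ((h * m : ℕ) : ℝ) := by positivity
    have hwR : (32 : ℝ) * ((h * m : ℕ) : ℝ) ≤ w := by exact_mod_cast hw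
    have e : a - 0 + (j - i) = a + j - i := by omega
    rw [← pow_add, e]
    have h1 : ((h * m : ℕ) : ℝ) ^ (a + j - i) ≤ (1 / 32 : ℝ) ^ (a + j - i) * (w : ℝ) ^ (a + j - i) := by
      rw [← mul_pow]
      refine pow_le_pow_left₀ hw0 ?_ _
      linarith
    refine h1.trans (mul_le_mul_of_nonneg_right ?_ (by positivity))
    exact pow_le_pow_of_le_one (by norm_num) (by norm_num) (by omega)

end Pool.Agent.H25.NP
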