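import Pool.Agent.H25.NP.Dense
import Pool.Agent.H25.NP.Alt
import Pool.Agent.H25.NM.Lines

/-!
The finite form of the bound for dense test graphs.
-/

namespace Pool.Agent.H25.NP

open Finset
open Pool.Agent.H25.NM

set_option linter.unusedSectionVars false

theorem small_le (V : Type) [Fintype V] (m : ℕ) : small V m ≤ (Fintype.card V + 1) ^ m := by
  classical
  unfold small
  -- a set with at most m elements is the range of a function from Fin m to Option V
  have h : ((univ : Finset (Finset V)).filter fun T => T.card ≤ m) ⊆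
      (univ : Finset (Fin m → Option V)).image
        fun f => (univ : Finset V).filter fun v => ∃ i, f i = some v := by
    intro T hT
    have hT := (Finset.mem_filter.1 hT).2
    rw [Finset.mem_image]
    refine ⟨fun i => if h : i.1 < T.card then some ((T.equivFin.symm ⟨i.1, h⟩ : T) : V) else none,
      Finset.mem_univ _, ?_⟩
    ext v
    rw [Finset.mem_filter]
    constructor
    · rintro ⟨_, i, hi⟩
      beta_reduce at hi
      by_cases h : i.1 < T.card
      · rw [dif_pos h, Option.some.injEq] at hi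
        rw [← hi]
        exact (T.equivFin.symm ⟨i.1, h⟩).2
      · rw [dif_neg h] at hi
        exact absurd hi (by simp)
    · intro hv
      refine ⟨Finset.mem_univ _, ⟨(T.equivFin ⟨v, hv⟩).1, (T.equivFin ⟨v, hv⟩).2.trans_le hT⟩, ?_⟩
      simp
  refine (Finset.card_le_card h).trans (Finset.card_image_le.trans ?_)
  rw [Finset.card_univ, Fintype.card_fun, Fintype.card_fin, Fintype.card_option]

/-- Lines: every pair of vertices lies in at most one block. -/
theorem nc_positions_le {V : Type} [Fintype V] {n J : ℕ} (φ : Fin J → V ↪ Fin n)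
    (hφ : ∀ i j u v u' v', u ≠ v → φ i u = φ j u' → φ i v = φ j v' → i = j)
    (e : Sym2 (Fin n)) (he : ¬ e.IsDiag) :
    nc (fun p : Fin J × Sym2 V => Sym2.map (φ p.1) p.2 = e) ≤ 1 := by
  classical
  rw [nc_eq, Finset.card_le_one]
  rintro ⟨i, a⟩ ha ⟨j, b⟩ hb
  have h1 := (Finset.mem_filter.1 ha).2
  have h2 := (Finset.mem_filter.1 hb).2
  simp only at h1 h2
  induction a using Sym2.ind with
  | _ u v =>
    induction b using Sym2.ind with
    | _ u' v' =>
      have huv : u ≠ v := by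
        rintro rfl
        apply he
        rw [← h1, Sym2.map_mk]
        exact Sym2.mk_isDiag_iff.2 rfl
      have h3 := h1.trans h2.symm
      rw [Sym2.map_mk, Sym2.map_mk, Sym2.eq_iff] at h3
      rcases h3 with ⟨h3, h4⟩ | ⟨h3, h4⟩
      · have hij := hφ i j u v u' v' huv h3 h4
        subst hij
        rw [(φ i).injective h3, (φ i).injective h4]
      · have hij := hφ i j u v v' u' huv h3 h4
        subst hij
        rw [(φ i).injective h3, (φ i).injective h4, Sym2.eq_swap]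

/-- **Finite form, dense case.** A family of detectors `F G` of a planted clique has to report
a change at a constant proportion of the steps of some chain. -/
theorem dense_alt {k w Q q n s m h : ℕ} [NeZero Q] (hq : q.Prime)
    (hm : 2 ≤ m) (hh : 1 ≤ h) (hQ : m * m ≤ Q) (hw : 32 * (h * m) ≤ w)
    (hV : k * w ≤ q) (hn : k * w * q ≤ n)
    (he1 : 2 * (q ^ 2 * s * ((m + 1) ^ 2 * 2 ^ m)) ≤ 32 ^ (m + 1))
    (he2 : 2 * (q ^ 2 * s * (k * w + 1) ^ m) ≤ 2 ^ h)
    (hcl : 2 * n ^ k * (Q - 1) ^ (k.choose 2) ≤ Q ^ (k.choose 2))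
    {F : SimpleGraph (Fin n) → SimpleGraph (Fin n) → Prop} (hF : ∀ G, MonoSize s (F G))
    (hFk : ∀ G H, G ≤ H → G.CliqueFree k → ¬ H.CliqueFree k → F G H)
    {a : ℕ} (halt : ∀ (J : ℕ) (x : ℕ → SimpleGraph (Fin n)), Monotone x →
      nc (fun j : Fin J => F (x j.1) (x (j.1 + 1))) ≤ a) :
    q ^ 2 ≤ 4 * a + 2 := by
  classical
  have hVc : Fintype.card (Fin k × Fin w) = k * w := by
    rw [Fintype.card_prod, Fintype.card_fin, Fintype.card_fin]
  obtain ⟨φ, hφ⟩ := NM.exists_blocks (V := Fin k × Fin w) (n := n) hq (by rw [hVc]; exact hV)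
    (by rw [hVc]; exact hn)
  have hhm : 1 ≤ h * m := Nat.one_le_iff_ne_zero.2 (Nat.mul_ne_zero (by omega) (by omega))
  have : Nonempty (Fin w) := ⟨⟨0, by omega⟩⟩
  have hB := blockHyp_dense (k := k) (w := w) (Q := Q) m h (by omega) hh hQ hw
  set η : ℝ := (1 / 32 : ℝ) ^ (m + 1) with hη
  set ε : ℝ := s * ((m + 1) ^ 2 * 2 ^ m * η + small (Fin k × Fin w) m / ((2 ^ h : ℕ) : ℝ))
    with hε
  have hmain := chain_alt (φ := φ) (ε := ε)
    (fun F hF => hB.main hm hF) hF (fun x => x.CliqueFree k)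
    (fun x y hxy hy => hy.anti hxy)
    (fun j p G hG => hFk _ _ le_sup_left hG (planted_not_cliqueFree (φ j) p G))
    (a := a) (fun ω => halt (q ^ 2) (pre φ (gr (nz Q)) ω) fun _ _ h => pre_mono ω h)
  -- the error term
  have hJε : ((q ^ 2 : ℕ) : ℝ) * ε ≤ 1 := by
    rw [hε]
    have g1 : ((q ^ 2 : ℕ) : ℝ) * (s * ((m + 1) ^ 2 * 2 ^ m * η)) ≤ 1 / 2 := by
      have e1 : (2 : ℝ) * ((q : ℝ) ^ 2 * s * ((m + 1) ^ 2 * 2 ^ m)) ≤ 32 ^ (m + 1) := by
        exact_mod_cast he1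
      have e2 : η * 32 ^ (m + 1) = 1 := by
        rw [hη, ← mul_pow]
        norm_num
      have e3 : (0 : ℝ) ≤ η := by
        rw [hη]
        positivity
      have e4 := mul_le_mul_of_nonneg_left e1 e3
      rw [e2] at e4
      push_cast
      linarith
    have g2 : ((q ^ 2 : ℕ) : ℝ) * (s * (small (Fin k × Fin w) m / ((2 ^ h : ℕ) : ℝ))) ≤
        1 / 2 := by
      have e1 : ((q ^ 2 : ℕ) : ℝ) * (s * (small (Fin k × Fin w) m / ((2 ^ h : ℕ) : ℝ))) =
          (2 * ((q ^ 2 : ℕ) : ℝ) * s * small (Fin k × Fin w) m) / ((2 ^ h : ℕ) : ℝ) / 2 := by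
        ring
      rw [e1]
      have e2 : (2 * ((q ^ 2 : ℕ) : ℝ) * s * small (Fin k × Fin w) m) / ((2 ^ h : ℕ) : ℝ) ≤ 1 := by
        rw [div_le_one (by positivity)]
        have e3 := small_le (Fin k × Fin w) m
        rw [hVc] at e3
        have e4 : 2 * q ^ 2 * s * small (Fin k × Fin w) m ≤ 2 ^ h := by
          refine le_trans ?_ he2
          calc 2 * q ^ 2 * s * small (Fin k × Fin w) m ≤ 2 * q ^ 2 * s * (k * w + 1) ^ m :=
                Nat.mul_le_mul_left _ e3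
            _ = _ := by ring
        exact_mod_cast e4
      linarith
    have g3 : ((q ^ 2 : ℕ) : ℝ) * (s * ((m + 1) ^ 2 * 2 ^ m * η +
        small (Fin k × Fin w) m / ((2 ^ h : ℕ) : ℝ))) =
        ((q ^ 2 : ℕ) : ℝ) * (s * ((m + 1) ^ 2 * 2 ^ m * η)) +
        ((q ^ 2 : ℕ) : ℝ) * (s * (small (Fin k × Fin w) m / ((2 ^ h : ℕ) : ℝ))) := by
      ring
    rw [g3]
    linarith
  -- most unions of blocks contain no clique
  set K := Fintype.card (Fin (q ^ 2) → (Sym2 (Fin k × Fin w) → Fin Q)) with hK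
  have hK0 : (0 : ℝ) < K := by
    rw [hK]
    exact_mod_cast Fintype.card_pos
  have hbad := nc_not_cliqueFree_le φ 1 (nc_positions_le φ hφ) (nz Q) k
  rw [← hK, Fintype.card_fin, card_nz, one_pow, one_mul] at hbad
  have hQpos : 0 < Q := Nat.pos_of_ne_zero (NeZero.ne Q)
  have hbad2 : 2 * nc (fun ω : Fin (q ^ 2) → (Sym2 (Fin k × Fin w) → Fin Q) =>
      ¬ (pre φ (gr (nz Q)) ω (q ^ 2)).CliqueFree k) ≤ K := by
    have g2 : 0 < Q ^ (k.choose 2) := by positivity
    refine Nat.le_of_mul_le_mul_left ?_ g2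
    calc Q ^ (k.choose 2) *
          (2 * nc (fun ω : Fin (q ^ 2) → (Sym2 (Fin k × Fin w) → Fin Q) =>
            ¬ (pre φ (gr (nz Q)) ω (q ^ 2)).CliqueFree k))
        = 2 * (nc (fun ω : Fin (q ^ 2) → (Sym2 (Fin k × Fin w) → Fin Q) =>
            ¬ (pre φ (gr (nz Q)) ω (q ^ 2)).CliqueFree k) * Q ^ (k.choose 2)) := by
          ring
      _ ≤ 2 * (n.choose k * ((Q - 1) ^ (k.choose 2) * K)) := Nat.mul_le_mul_left _ hbad
      _ ≤ 2 * (n ^ k * ((Q - 1) ^ (k.choose 2) * K)) :=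
          Nat.mul_le_mul_left _ (Nat.mul_le_mul_right _ (Nat.choose_le_pow n k))
      _ = (2 * n ^ k * (Q - 1) ^ (k.choose 2)) * K := by ring
      _ ≤ Q ^ (k.choose 2) * K := Nat.mul_le_mul_right _ hcl
  have hgood : (K : ℝ) / 2 ≤
      nc (fun ω : Fin (q ^ 2) → (Sym2 (Fin k × Fin w) → Fin Q) =>
        (pre φ (gr (nz Q)) ω (q ^ 2)).CliqueFree k) := by
    have g1 := nc_add_nc_not fun ω : Fin (q ^ 2) → (Sym2 (Fin k × Fin w) → Fin Q) =>
      (pre φ (gr (nz Q)) ω (q ^ 2)).CliqueFree k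
    rw [← hK] at g1
    have g3 : (2 * nc (fun ω : Fin (q ^ 2) → (Sym2 (Fin k × Fin w) → Fin Q) =>
      ¬ (pre φ (gr (nz Q)) ω (q ^ 2)).CliqueFree k) : ℝ) ≤ K := by exact_mod_cast hbad2
    have g4 : (nc (fun ω : Fin (q ^ 2) → (Sym2 (Fin k × Fin w) → Fin Q) =>
      (pre φ (gr (nz Q)) ω (q ^ 2)).CliqueFree k) : ℝ) +
      nc (fun ω : Fin (q ^ 2) → (Sym2 (Fin k × Fin w) → Fin Q) =>
        ¬ (pre φ (gr (nz Q)) ω (q ^ 2)).CliqueFree k) = K := by exact_mod_cast g1
    linarith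
  have hfin : ((q ^ 2 : ℕ) : ℝ) * (K / 2) ≤ (2 * a + 1) * K := by
    calc ((q ^ 2 : ℕ) : ℝ) * (K / 2)
        ≤ ((q ^ 2 : ℕ) : ℝ) *
          nc (fun ω : Fin (q ^ 2) → (Sym2 (Fin k × Fin w) → Fin Q) =>
            (pre φ (gr (nz Q)) ω (q ^ 2)).CliqueFree k) :=
          mul_le_mul_of_nonneg_left hgood (by positivity)
      _ ≤ (2 * a + ((q ^ 2 : ℕ) : ℝ) * ε) * K := hmain
      _ ≤ (2 * a + 1) * K := by
          refine mul_le_mul_of_nonneg_right ?_ hK0.le
          linarith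
  have hfin2 : ((q ^ 2 : ℕ) : ℝ) ≤ 4 * a + 2 := by
    have : ((q ^ 2 : ℕ) : ℝ) * K ≤ (4 * a + 2) * K := by linarith
    exact le_of_mul_le_mul_right this hK0
  exact_mod_cast hfin2

end Pool.Agent.H25.NP
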