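import Mathlib

/-!
Programs as lists of functions, with few negations.
-/

namespace Pool.Agent.H25.NP

open Finset

/-- Programs over a set of basic functions, with `r` negations; the last gate is the head. -/
inductive NProg {α : Type} (Base : Set (α → Prop)) : List (α → Prop) → ℕ → Prop
  | nil : NProg Base [] 0
  | base {l : List (α → Prop)} {r : ℕ} {g : α → Prop} :
      g ∈ Base → NProg Base l r → NProg Base (g :: l) r
  | and {l : List (α → Prop)} {r : ℕ} (S : Set (α → Prop)) :
      (∀ f ∈ S, f ∈ l) → NProg Base l r → NProg Base ((fun x => ∀ f ∈ S, f x) :: l) r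
  | or {l : List (α → Prop)} {r : ℕ} (S : Set (α → Prop)) :
      (∀ f ∈ S, f ∈ l) → NProg Base l r → NProg Base ((fun x => ∃ f ∈ S, f x) :: l) r
  | not {l : List (α → Prop)} {r : ℕ} {f : α → Prop} :
      f ∈ l → NProg Base l r → NProg Base ((fun x => ¬ f x) :: l) (r + 1)

variable {α β : Type} {Base : Set (α → Prop)}

theorem NProg.append {l l' : List (α → Prop)} {r r' : ℕ} (h : NProg Base l r)
    (h' : NProg Base l' r') : NProg Base (l' ++ l) (r' + r) := by
  induction h' with
  | nil =>
    rw [List.nil_append, Nat.zero_add]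
    exact h
  | base hg _ ih => exact NProg.base hg ih
  | and S hS _ ih => exact NProg.and S (fun f hf => List.mem_append_left _ (hS f hf)) ih
  | or S hS _ ih => exact NProg.or S (fun f hf => List.mem_append_left _ (hS f hf)) ih
  | @not l' r' f hf _ ih =>
    have e : r' + 1 + r = r' + r + 1 := by omega
    rw [e]
    exact NProg.not (List.mem_append_left _ hf) ih

/-- A copy of a program, with a function substituted for the input. -/
theorem NProg.subst {Base' : Set (β → Prop)} {l : List (α → Prop)} {r : ℕ} (h : NProg Base l r)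
    (φ : β → α) {l₀ : List (β → Prop)} {r₀ : ℕ} (h₀ : NProg Base' l₀ r₀)
    (hB : ∀ g ∈ Base, (fun x => g (φ x)) ∈ l₀) :
    NProg Base' ((l.map fun g => fun x => g (φ x)) ++ l₀) (r + r₀) := by
  induction h with
  | nil =>
    rw [List.map_nil, List.nil_append, Nat.zero_add]
    exact h₀
  | @base l r g hg _ ih =>
    have h1 := NProg.and (Base := Base') {fun x => g (φ x)} (by
      intro f hf
      rw [Set.mem_singleton_iff] at hf
      rw [hf]
      exact List.mem_append_right (l.map fun g => fun x => g (φ x)) (hB g hg)) ih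
    have h2 : (fun x => ∀ f ∈ ({fun x => g (φ x)} : Set (β → Prop)), f x) = fun x => g (φ x) := by
      funext x
      simp
    rw [h2] at h1
    exact h1
  | @and l r S hS _ ih =>
    have h1 := NProg.and (Base := Base') ((fun g => fun x => g (φ x)) '' S) (by
      rintro f ⟨g, hg, rfl⟩
      exact List.mem_append_left _ (List.mem_map_of_mem (hS g hg))) ih
    have h2 : (fun x => ∀ f ∈ ((fun g => fun x => g (φ x)) '' S : Set (β → Prop)), f x) =
        fun x => ∀ f ∈ S, f (φ x) := by
      funext x
      simp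
    rw [h2] at h1
    exact h1
  | @or l r S hS _ ih =>
    have h1 := NProg.or (Base := Base') ((fun g => fun x => g (φ x)) '' S) (by
      rintro f ⟨g, hg, rfl⟩
      exact List.mem_append_left _ (List.mem_map_of_mem (hS g hg))) ih
    have h2 : (fun x => ∃ f ∈ ((fun g => fun x => g (φ x)) '' S : Set (β → Prop)), f x) =
        fun x => ∃ f ∈ S, f (φ x) := by
      funext x
      simp
    rw [h2] at h1
    exact h1
  | @not l r f hf _ ih =>
    have e : r + 1 + r₀ = r + r₀ + 1 := by omega
    rw [e]
    exact NProg.not (f := fun x => f (φ x)) (List.mem_append_left _ (List.mem_map_of_mem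
      (f := fun g : α → Prop => fun x => g (φ x)) hf)) ih

/-- Renaming the inputs. -/
theorem NProg.comap {Base' : Set (β → Prop)} {l : List (α → Prop)} {r : ℕ} (h : NProg Base l r)
    (φ : β → α) (hB : ∀ g ∈ Base, (fun x => g (φ x)) ∈ Base') :
    NProg Base' (l.map fun g => fun x => g (φ x)) r := by
  induction h with
  | nil => exact NProg.nil
  | base hg _ ih => exact NProg.base (hB _ hg) ih
  | @and l r S hS _ ih =>
    have h1 := NProg.and (Base := Base') ((fun g => fun x => g (φ x)) '' S) (by
      rintro f ⟨g, hg, rfl⟩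
      exact List.mem_map_of_mem (hS g hg)) ih
    have h2 : (fun x => ∀ f ∈ ((fun g => fun x => g (φ x)) '' S : Set (β → Prop)), f x) =
        fun x => ∀ f ∈ S, f (φ x) := by
      funext x
      simp
    rw [h2] at h1
    exact h1
  | @or l r S hS _ ih =>
    have h1 := NProg.or (Base := Base') ((fun g => fun x => g (φ x)) '' S) (by
      rintro f ⟨g, hg, rfl⟩
      exact List.mem_map_of_mem (hS g hg)) ih
    have h2 : (fun x => ∃ f ∈ ((fun g => fun x => g (φ x)) '' S : Set (β → Prop)), f x) =
        fun x => ∃ f ∈ S, f (φ x) := by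
      funext x
      simp
    rw [h2] at h1
    exact h1
  | @not l r f hf _ ih =>
    exact NProg.not (f := fun x => f (φ x)) (List.mem_map_of_mem
      (f := fun g : α → Prop => fun x => g (φ x)) hf) ih

/-- Programs without negations over monotone functions are monotone. -/
theorem NProg.mono [Preorder α] {l : List (α → Prop)} {r : ℕ} (h : NProg Base l r) (hr : r = 0)
    (hB : ∀ g ∈ Base, ∀ x y, x ≤ y → g x → g y) : ∀ f ∈ l, ∀ x y, x ≤ y → f x → f y := by
  induction h with
  | nil =>
    intro f hf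
    exact absurd hf List.not_mem_nil
  | base hg _ ih =>
    intro f hf x y hxy hfx
    rcases List.mem_cons.1 hf with h1 | h1
    · rw [h1] at hfx ⊢
      exact hB _ hg x y hxy hfx
    · exact ih hr f h1 x y hxy hfx
  | and S hS _ ih =>
    intro f hf x y hxy hfx
    rcases List.mem_cons.1 hf with h1 | h1
    · rw [h1] at hfx ⊢
      exact fun g hg => ih hr g (hS g hg) x y hxy (hfx g hg)
    · exact ih hr f h1 x y hxy hfx
  | or S hS _ ih =>
    intro f hf x y hxy hfx
    rcases List.mem_cons.1 hf with h1 | h1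
    · rw [h1] at hfx ⊢
      obtain ⟨g, hg, hgx⟩ := hfx
      exact ⟨g, hg, ih hr g (hS g hg) x y hxy hgx⟩
    · exact ih hr f h1 x y hxy hfx
  | not _ _ _ => exact absurd hr (Nat.succ_ne_zero _)

/-- The functions in `K` are computed by one program with `s` gates and `r` negations. -/
def Comp (Base : Set (α → Prop)) (K : Set (α → Prop)) (s r : ℕ) : Prop :=
  ∃ l, NProg Base l r ∧ (∀ f ∈ K, f ∈ l) ∧ l.length ≤ s

theorem Comp.mono {K K' : Set (α → Prop)} {s s' r : ℕ} (h : Comp Base K s r) (hK : K' ⊆ K)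
    (hs : s ≤ s') : Comp Base K' s' r := by
  obtain ⟨l, h1, h2, h3⟩ := h
  exact ⟨l, h1, fun f hf => h2 f (hK hf), h3.trans hs⟩

theorem Comp.base {K : Set (α → Prop)} {s r : ℕ} (h : Comp Base K s r) {g : α → Prop}
    (hg : g ∈ Base) : Comp Base (insert g K) (s + 1) r := by
  obtain ⟨l, h1, h2, h3⟩ := h
  refine ⟨g :: l, NProg.base hg h1, ?_, by rw [List.length_cons]; omega⟩
  intro f hf
  rcases hf with rfl | hf
  · exact List.mem_cons_self
  · exact List.mem_cons_of_mem _ (h2 f hf)

theorem Comp.and {K : Set (α → Prop)} {s r : ℕ} (h : Comp Base K s r) (S : Set (α → Prop))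
    (hS : S ⊆ K) {g : α → Prop} (hg : ∀ x, g x ↔ ∀ f ∈ S, f x) :
    Comp Base (insert g K) (s + 1) r := by
  obtain ⟨l, h1, h2, h3⟩ := h
  have e : g = fun x => ∀ f ∈ S, f x := funext fun x => propext (hg x)
  rw [e]
  refine ⟨_ :: l, NProg.and S (fun f hf => h2 f (hS hf)) h1, ?_, by rw [List.length_cons]; omega⟩
  intro f hf
  rcases hf with rfl | hf
  · exact List.mem_cons_self
  · exact List.mem_cons_of_mem _ (h2 f hf)

theorem Comp.or {K : Set (α → Prop)} {s r : ℕ} (h : Comp Base K s r) (S : Set (α → Prop))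
    (hS : S ⊆ K) {g : α → Prop} (hg : ∀ x, g x ↔ ∃ f ∈ S, f x) :
    Comp Base (insert g K) (s + 1) r := by
  obtain ⟨l, h1, h2, h3⟩ := h
  have e : g = fun x => ∃ f ∈ S, f x := funext fun x => propext (hg x)
  rw [e]
  refine ⟨_ :: l, NProg.or S (fun f hf => h2 f (hS hf)) h1, ?_, by rw [List.length_cons]; omega⟩
  intro f hf
  rcases hf with rfl | hf
  · exact List.mem_cons_self
  · exact List.mem_cons_of_mem _ (h2 f hf)

theorem Comp.and2 {K : Set (α → Prop)} {s r : ℕ} (h : Comp Base K s r) {f₁ f₂ g : α → Prop}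
    (h₁ : f₁ ∈ K) (h₂ : f₂ ∈ K) (hg : ∀ x, g x ↔ (f₁ x ∧ f₂ x)) :
    Comp Base (insert g K) (s + 1) r := by
  refine h.and {f₁, f₂} ?_ fun x => ?_
  · rintro f (rfl | rfl)
    · exact h₁
    · exact h₂
  · rw [hg]
    simp

theorem Comp.or2 {K : Set (α → Prop)} {s r : ℕ} (h : Comp Base K s r) {f₁ f₂ g : α → Prop}
    (h₁ : f₁ ∈ K) (h₂ : f₂ ∈ K) (hg : ∀ x, g x ↔ (f₁ x ∨ f₂ x)) :
    Comp Base (insert g K) (s + 1) r := by
  refine h.or {f₁, f₂} ?_ fun x => ?_
  · rintro f (rfl | rfl)
    · exact h₁
    · exact h₂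
  · rw [hg]
    simp

theorem Comp.not {K : Set (α → Prop)} {s r : ℕ} (h : Comp Base K s r) {f g : α → Prop}
    (hf : f ∈ K) (hg : ∀ x, g x ↔ ¬ f x) : Comp Base (insert g K) (s + 1) (r + 1) := by
  obtain ⟨l, h1, h2, h3⟩ := h
  have e : g = fun x => ¬ f x := funext fun x => propext (hg x)
  rw [e]
  refine ⟨_ :: l, NProg.not (h2 f hf) h1, ?_, by rw [List.length_cons]; omega⟩
  intro f' hf'
  rcases hf' with rfl | hf'
  · exact List.mem_cons_self
  · exact List.mem_cons_of_mem _ (h2 f' hf')

/-- The function `g` can be added to a program computing `K` at the cost of `c` gates. -/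
def Easy (Base : Set (α → Prop)) (K : Set (α → Prop)) (c : ℕ) (g : α → Prop) : Prop :=
  ∀ K' s r, K ⊆ K' → Comp Base K' s r → Comp Base (insert g K') (s + c) r

theorem Easy.mono {K K' : Set (α → Prop)} {c : ℕ} {g : α → Prop} (h : Easy Base K c g)
    (hK : K ⊆ K') : Easy Base K' c g :=
  fun K'' s r hK'' hc => h K'' s r (hK.trans hK'') hc

theorem Comp.family {ι : Type} {K : Set (α → Prop)} {s r c : ℕ} (h : Comp Base K s r)
    (I : Finset ι) (g : ι → α → Prop) (hg : ∀ i ∈ I, Easy Base K c (g i)) :
    Comp Base (K ∪ g '' (I : Set ι)) (s + I.card * c) r := by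
  classical
  induction I using Finset.induction_on with
  | empty =>
    refine h.mono ?_ (by simp)
    simp
  | insert a I ha ih =>
    have h1 := ih fun i hi => hg i (Finset.mem_insert_of_mem hi)
    have h2 := hg a (Finset.mem_insert_self _ _) _ _ _ Set.subset_union_left h1
    rw [Finset.card_insert_of_notMem ha]
    refine h2.mono ?_ (le_of_eq (by ring))
    intro f hf
    rcases hf with hf | ⟨i, hi, rfl⟩
    · exact Or.inr (Or.inl hf)
    · rcases Finset.mem_insert.1 (Finset.mem_coe.1 hi) with rfl | hi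
      · exact Or.inl rfl
      · exact Or.inr (Or.inr ⟨i, Finset.mem_coe.2 hi, rfl⟩)

/-- Negations of a decreasing sequence of functions (Markov, Fischer). -/
theorem Comp.neg_sorted (p : ℕ) : ∀ {K : Set (α → Prop)} {s r : ℕ}, Comp Base K s r →
    ∀ τ : ℕ → α → Prop, (∀ j, ∀ x, τ (j + 1) x → τ j x) →
    (∀ j, 1 ≤ j → j < 2 ^ p → τ j ∈ K) →
    Comp Base (K ∪ {g | ∃ j, 1 ≤ j ∧ j < 2 ^ p ∧ g = fun x => ¬ τ j x}) (s + 4 * 2 ^ p)
      (r + p) := by
  classical
  induction p with
  | zero =>
    intro K s r h τ _ _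
    refine h.mono ?_ (by omega)
    rintro f (hf | ⟨j, h1, h2, _⟩)
    · exact hf
    · rw [pow_zero] at h2
      omega
  | succ p ih =>
    intro K s r h τ hτ hK
    set m : ℕ := 2 ^ p with hm
    have hm1 : 1 ≤ m := Nat.one_le_two_pow
    have h2m : 2 ^ (p + 1) = 2 * m := by rw [pow_succ, hm, mul_comm]
    have hanti : ∀ i j, i ≤ j → ∀ x, τ j x → τ i x := by
      intro i j hij
      induction j, hij using Nat.le_induction with
      | base => exact fun _ h => h
      | succ j _ ih => exact fun x hx => ih x (hτ j x hx)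
    rw [h2m] at hK ⊢
    set y : α → Prop := fun x => ¬ τ m x with hy
    have h1 := h.not (hK m hm1 (by omega)) (g := y) fun x => Iff.rfl
    let z : ℕ → α → Prop := fun j x => (τ j x ∧ y x) ∨ τ (j + m) x
    have h2 := h1.family (Finset.Ico 1 m) z (c := 2) (by
      intro j hj
      rw [Finset.mem_Ico] at hj
      intro K' s' r' hK' hc
      have hj1 : τ j ∈ K' := hK' (Or.inr (hK j hj.1 (by omega)))
      have hj2 : τ (j + m) ∈ K' := hK' (Or.inr (hK (j + m) (by omega) (by omega)))
      have hyK : y ∈ K' := hK' (Or.inl rfl)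
      have g1 := hc.and2 hj1 hyK (g := fun x => τ j x ∧ y x) fun x => Iff.rfl
      have g2 := g1.or2 (f₁ := fun x => τ j x ∧ y x) (f₂ := τ (j + m)) (Or.inl rfl)
        (Or.inr hj2) (g := z j) fun x => Iff.rfl
      refine g2.mono ?_ (by omega)
      intro f hf
      rcases hf with rfl | hf
      · exact Or.inl rfl
      · exact Or.inr (Or.inr hf))
    -- the sequence z, completed
    let z' : ℕ → α → Prop := fun j => if j < m then z j else fun _ => False
    have h3 := ih h2 z' (by
      intro j x hx
      have hx' : (if j + 1 < m then z (j + 1) else fun _ => False) x := hx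
      show (if j < m then z j else fun _ => False) x
      by_cases hj : j + 1 < m
      · rw [if_pos hj] at hx'
        rw [if_pos (by omega)]
        rcases hx' with hx' | hx'
        · exact Or.inl ⟨hτ j x hx'.1, hx'.2⟩
        · right
          refine hτ (j + m) x ?_
          have e : j + m + 1 = j + 1 + m := by omega
          rw [e]
          exact hx'
      · rw [if_neg hj] at hx'
        exact hx'.elim) (by
      intro j hj1 hj2
      show (if j < m then z j else fun _ => False) ∈ _
      rw [if_pos hj2]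
      exact Or.inr ⟨j, Finset.mem_coe.2 (Finset.mem_Ico.2 ⟨hj1, hj2⟩), rfl⟩)
    -- the negations
    have hnz : ∀ j, 1 ≤ j → j < m → (fun x => ¬ z j x) ∈
        {g : α → Prop | ∃ j, 1 ≤ j ∧ j < 2 ^ p ∧ g = fun x => ¬ z' j x} := by
      intro j h1 h2
      refine ⟨j, h1, h2, ?_⟩
      funext x
      show (¬ z j x) = ¬ (if j < m then z j else fun _ => False) x
      rw [if_pos h2]
    have h4 := h3.family (Finset.Ico 1 (2 * m)) (fun j => fun x => ¬ τ j x) (c := 1) (by
      intro j hj
      rw [Finset.mem_Ico] at hj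
      intro K' s' r' hK' hc
      have hyK : y ∈ K' := hK' (Or.inl (Or.inl (Or.inl rfl)))
      rcases lt_trichotomy j m with hjm | hjm | hjm
      · have hz : (fun x => ¬ z j x) ∈ K' := hK' (Or.inr (hnz j hj.1 hjm))
        refine hc.and2 hyK hz fun x => ?_
        show (¬ τ j x) ↔ ((¬ τ m x) ∧ ¬ ((τ j x ∧ ¬ τ m x) ∨ τ (j + m) x))
        have a1 := hanti j m hjm.le x
        have a2 := hanti m (j + m) (by omega) x
        tauto
      · rw [hjm]
        refine hc.mono ?_ (by omega)
        rintro f (rfl | hf)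
        · exact hyK
        · exact hf
      · have hz : (fun x => ¬ z (j - m) x) ∈ K' :=
          hK' (Or.inr (hnz (j - m) (by omega) (by omega)))
        refine hc.or2 hyK hz fun x => ?_
        have e : j - m + m = j := by omega
        show (¬ τ j x) ↔ ((¬ τ m x) ∨ ¬ ((τ (j - m) x ∧ ¬ τ m x) ∨ τ (j - m + m) x))
        rw [e]
        have a1 := hanti (j - m) m (by omega) x
        have a2 := hanti m j hjm.le x
        tauto)
    have e1 : r + (p + 1) = r + 1 + p := by omega
    rw [e1]
    refine h4.mono ?_ ?_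
    · rintro f (hf | ⟨j, h5, h6, rfl⟩)
      · exact Or.inl (Or.inl (Or.inl (Or.inr hf)))
      · exact Or.inr ⟨j, Finset.mem_coe.2 (Finset.mem_Ico.2 ⟨h5, h6⟩), rfl⟩
    · rw [Nat.card_Ico, Nat.card_Ico]
      omega

end Pool.Agent.H25.NP
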