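import Pool.Agent.H25.NP.Univ
import Pool.Agent.H25.NP.Comb

/-!
The choice of the parameters and the main theorem.
-/

namespace Pool.Agent.H25.NP

open Finset
open Pool.Agent.H25.NM

theorem two_mul_pred_pow (Q : ℕ) (hQ : 1 ≤ Q) : 2 * (Q - 1) ^ Q ≤ Q ^ Q := by
  obtain ⟨q, rfl⟩ : ∃ q, Q = q + 1 := ⟨Q - 1, by omega⟩
  rw [Nat.add_sub_cancel]
  rcases Nat.eq_zero_or_pos q with h | h
  · subst h
    norm_num
  · have hq : (0 : ℝ) < q := by exact_mod_cast h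
    have h1 := one_add_mul_le_pow (a := (1 : ℝ) / q) (by
      have : (0 : ℝ) ≤ 1 / q := by positivity
      linarith) (q + 1)
    have h2 : (2 : ℝ) ≤ 1 + ((q + 1 : ℕ) : ℝ) * (1 / q) := by
      have : ((q + 1 : ℕ) : ℝ) * (1 / q) = 1 + 1 / q := by
        push_cast
        field_simp
      rw [this]
      have : (0 : ℝ) ≤ 1 / q := by positivity
      linarith
    have h3 : (1 + 1 / (q : ℝ)) ^ (q + 1) * (q : ℝ) ^ (q + 1) = ((q : ℝ) + 1) ^ (q + 1) := by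
      rw [← mul_pow]
      congr 1
      field_simp
    have h4 : (2 : ℝ) * (q : ℝ) ^ (q + 1) ≤ ((q : ℝ) + 1) ^ (q + 1) := by
      rw [← h3]
      exact mul_le_mul_of_nonneg_right (h2.trans h1) (by positivity)
    exact_mod_cast h4

theorem clique_count {n k l Q : ℕ} (hQ : 1 ≤ Q) (hn : n ≤ 2 ^ l) (hk : 2 * Q * (l + 1) + 1 ≤ k) :
    2 * n ^ k * (Q - 1) ^ (k.choose 2) ≤ Q ^ (k.choose 2) := by
  have h1 : Q * (k * l + 1) ≤ k.choose 2 := by
    have h2 := two_choose_two k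
    have h3 : k * (2 * Q * (l + 1)) ≤ k * (k - 1) := Nat.mul_le_mul_left _ (by omega)
    have h4 : 2 * (Q * (k * l + 1)) ≤ k * (2 * Q * (l + 1)) := by
      have h5 : Q * 1 ≤ Q * k := Nat.mul_le_mul_left _ (by omega)
      calc 2 * (Q * (k * l + 1)) = 2 * (Q * k * l) + 2 * (Q * 1) := by ring
        _ ≤ 2 * (Q * k * l) + 2 * (Q * k) := by omega
        _ = _ := by ring
    omega
  have h2 : 2 ^ (k * l + 1) * (Q - 1) ^ (Q * (k * l + 1)) ≤ Q ^ (Q * (k * l + 1)) := by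
    rw [pow_mul, pow_mul, ← mul_pow]
    exact Nat.pow_le_pow_left (two_mul_pred_pow Q hQ) _
  have h3 : n ^ k ≤ 2 ^ (k * l) := by
    calc n ^ k ≤ (2 ^ l) ^ k := Nat.pow_le_pow_left hn _
      _ = 2 ^ (k * l) := by rw [← pow_mul, mul_comm]
  obtain ⟨c, hc⟩ := Nat.exists_eq_add_of_le h1
  rw [hc, pow_add, pow_add]
  calc 2 * n ^ k * ((Q - 1) ^ (Q * (k * l + 1)) * (Q - 1) ^ c)
      = 2 * n ^ k * (Q - 1) ^ (Q * (k * l + 1)) * (Q - 1) ^ c := by ring
    _ ≤ 2 * 2 ^ (k * l) * (Q - 1) ^ (Q * (k * l + 1)) * Q ^ c := by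
        refine Nat.mul_le_mul (Nat.mul_le_mul_right _ (Nat.mul_le_mul_left _ h3))
          (Nat.pow_le_pow_left (by omega) _)
    _ = 2 ^ (k * l + 1) * (Q - 1) ^ (Q * (k * l + 1)) * Q ^ c := by
        rw [pow_succ]
        ring
    _ ≤ Q ^ (Q * (k * l + 1)) * Q ^ c := Nat.mul_le_mul_right _ h2

/-- A monotone or antitone property changes at most once along a chain. -/
theorem nc_out_le {n k J : ℕ} {f : SimpleGraph (Fin n) → Prop}
    (hf : (∀ G, f G ↔ ¬ G.CliqueFree k) ∨ (∀ G, f G ↔ G.CliqueFree k))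
    {X : ℕ → SimpleGraph (Fin n)} (hX : Monotone X) :
    nc (fun j : Fin J => ¬ (f (X j.1) ↔ f (X (j.1 + 1)))) ≤ 1 := by
  classical
  rw [nc_eq, Finset.card_le_one]
  have key : ∀ j : Fin J, ¬ (f (X j.1) ↔ f (X (j.1 + 1))) →
      (X j.1).CliqueFree k ∧ ¬ (X (j.1 + 1)).CliqueFree k := by
    intro j hj
    have h1 : (X (j.1 + 1)).CliqueFree k → (X j.1).CliqueFree k :=
      fun h => h.anti (hX (Nat.le_succ _))
    rcases hf with hf | hf
    · rw [hf, hf] at hj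
      tauto
    · rw [hf, hf] at hj
      tauto
  have key2 : ∀ a b : Fin J, ¬ (f (X a.1) ↔ f (X (a.1 + 1))) →
      ¬ (f (X b.1) ↔ f (X (b.1 + 1))) → a < b → False := by
    intro a b ha hb hab
    have hab' : a.1 < b.1 := hab
    exact (key a ha).2 ((key b hb).1.anti (hX (show a.1 + 1 ≤ b.1 from hab')))
  intro a ha b hb
  have ha' := (Finset.mem_filter.1 ha).2
  have hb' := (Finset.mem_filter.1 hb).2
  rcases lt_trichotomy a b with h | h | h
  · exact (key2 a b ha' hb' h).elim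
  · exact h
  · exact (key2 b a hb' ha' h).elim

theorem nc_fin_eq (J : ℕ) (p : ℕ → Prop) :
    nc (fun j : Fin J => p j.1) = (@Finset.filter _ p (Classical.decPred _) (range J)).card := by
  classical
  rw [nc_eq]
  refine Finset.card_bij (fun j _ => j.1) ?_ ?_ ?_
  · intro j hj
    simp only [Finset.mem_filter, Finset.mem_range] at hj ⊢
    exact ⟨j.2, hj.2⟩
  · intro a _ b _ h
    exact Fin.ext h
  · intro b hb
    simp only [Finset.mem_filter, Finset.mem_range] at hb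
    exact ⟨⟨b, hb.1⟩, Finset.mem_filter.2 ⟨Finset.mem_univ _, hb.2⟩, rfl⟩

/-- **Main theorem.** In every circuit of size at most `2 ^ l` which decides `k`-clique the
watched gates change many times along some chain of graphs. -/
theorem main {n L l k s : ℕ} (hL : 1 ≤ L) (hLl : L ≤ l) (hnL : n ≤ 2 ^ L)
    (hk1 : 17 * l ^ 2 * L ≤ k) (hk2 : 2 * k ≤ n) (hln : 2 ^ 29 * l ^ 8 * L ^ 4 ≤ n)
    (hs : s ≤ 2 ^ l) (C : Circuit n s) (out : Fin s)
    (hC : (∀ G : SimpleGraph (Fin n), C.fn out G ↔ ¬ G.CliqueFree k) ∨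
      (∀ G : SimpleGraph (Fin n), C.fn out G ↔ G.CliqueFree k)) :
    ∃ A : ℕ, n ^ 2 ≤ 2 ^ 33 * l ^ 8 * L ^ 4 * A ∧ ∃ y : ℕ → SimpleGraph (Fin n), Monotone y ∧
      ∀ a < A, ∃ i ∈ C.watched, ¬ (C.fn i (y a) ↔ C.fn i (y (a + 1))) := by
  classical
  have hl : 1 ≤ l := hL.trans hLl
  have hYpos : 1 ≤ l ^ 8 * L ^ 4 :=
    Nat.one_le_iff_ne_zero.2 (Nat.mul_ne_zero (pow_ne_zero _ (by omega)) (pow_ne_zero _ (by omega)))
  set Y : ℕ := l ^ 8 * L ^ 4 with hY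
  have eY : ∀ c : ℕ, c * l ^ 8 * L ^ 4 = c * Y := fun c => by rw [hY, mul_assoc]
  rw [eY] at hln
  rw [eY]
  obtain ⟨B, hA1, hA2⟩ : ∃ B, n ^ 2 < 2 ^ 33 * Y * (B + 1) ∧ 2 ^ 33 * Y * B ≤ n ^ 2 :=
    ⟨n ^ 2 / (2 ^ 33 * Y), Nat.lt_mul_div_succ _ (by positivity), Nat.mul_div_le _ _⟩
  refine ⟨B + 1, hA1.le, ?_⟩
  by_contra hcon
  push Not at hcon
  -- parameters
  have hl1 : 1 ≤ l ^ 2 := Nat.one_le_pow _ _ hl
  have hlL : 1 ≤ l ^ 2 * L := Nat.one_le_iff_ne_zero.2 (Nat.mul_ne_zero (by omega) (by omega))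
  set k₀ : ℕ := 17 * l ^ 2 * L with hk₀
  set n₀ : ℕ := n - (k - k₀) with hn₀
  have hn₀n : n₀ ≤ n := Nat.sub_le _ _
  have hn₀2 : n ≤ 2 * n₀ := by omega
  have hkk : k = k₀ + (n - n₀) := by omega
  set v : ℕ := k₀ * (512 * (l ^ 2 * L)) with hv
  have hvl : v = 8704 * (l ^ 4 * L ^ 2) := by
    rw [hv, hk₀]
    ring
  have hl6 : 1 ≤ l ^ 4 * L ^ 2 :=
    Nat.one_le_iff_ne_zero.2 (Nat.mul_ne_zero (pow_ne_zero _ (by omega)) (pow_ne_zero _ (by omega)))
  have hv1 : 1 ≤ v := by omega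
  have hv2 : v ^ 2 = 75759616 * Y := by
    rw [hvl, hY]
    ring
  have h4v : 4 * v ^ 2 ≤ n := by
    rw [hv2]
    omega
  have hl2 : 2 ≤ l := by
    by_contra hcon'
    have h1 : L = 1 := by omega
    rw [h1] at hnL
    norm_num at hnL hln
    omega
  set N : ℕ := n₀ / v with hN
  have hvN : v * N ≤ n₀ := Nat.mul_div_le _ _
  have hvN2 : n₀ < v * (N + 1) := Nat.lt_mul_div_succ _ (by omega)
  have hNpos : N / 2 ≠ 0 := by
    intro h0
    have h1 : N ≤ 1 := by omega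
    have h2 : v * (N + 1) ≤ v * 2 := Nat.mul_le_mul_left _ (by omega)
    have h3 : v * v ≤ n₀ := by
      have : v ^ 2 = v * v := sq v
      omega
    have h4 : v * 8704 ≤ v * v := Nat.mul_le_mul_left _ (by omega)
    omega
  obtain ⟨q, hq, hq1, hq2⟩ := Nat.exists_prime_lt_and_le_two_mul (N / 2) hNpos
  have hqN : q ≤ N := by omega
  have hvq : v * q ≤ n₀ := (Nat.mul_le_mul_left _ hqN).trans hvN
  have hqv : n < 4 * (q * v) := by
    have h1 : v * (N + 1) ≤ v * (2 * q) := Nat.mul_le_mul_left _ (by omega)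
    have h2 : v * (2 * q) = 2 * (q * v) := by ring
    omega
  have hvleq : v ≤ q := by
    by_contra hcon'
    push Not at hcon'
    have h1 : q * v ≤ v * v := Nat.mul_le_mul_right _ hcon'.le
    have h2 : v ^ 2 = v * v := sq v
    omega
  have hqn : q ≤ 2 ^ L := by
    have : 1 * q ≤ v * q := Nat.mul_le_mul_right _ hv1
    omega
  have hq2l : q ^ 2 ≤ 2 ^ (2 * L) := by
    calc q ^ 2 ≤ (2 ^ L) ^ 2 := Nat.pow_le_pow_left hqn 2
      _ = 2 ^ (2 * L) := by rw [← pow_mul, mul_comm]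
  have hss : (s + 1) * (s + 2) ≤ 2 ^ (2 * l + 2) := by
    have h1 : 2 ≤ 2 ^ l := by
      calc 2 = 2 ^ 1 := rfl
        _ ≤ 2 ^ l := Nat.pow_le_pow_right (by norm_num) hl
    calc (s + 1) * (s + 2) ≤ (2 * 2 ^ l) * (2 * 2 ^ l) := Nat.mul_le_mul (by omega) (by omega)
      _ = 2 ^ (2 * l + 2) := by
          rw [pow_add, two_mul l, pow_add]
          ring
  have hv1l : v + 1 ≤ 2 ^ L := by
    have h1 : v * 2 ≤ v * q := Nat.mul_le_mul_left _ hq.two_le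
    omega
  -- the hypotheses
  have : NeZero (4 * l ^ 2) := ⟨by omega⟩
  have hm1 : 2 * l + 1 ≤ 2 ^ (2 * l) := Nat.lt_two_pow_self
  have he1 : 2 * (q ^ 2 * ((s + 1) * (s + 2)) * ((2 * l + 1) ^ 2 * 2 ^ (2 * l))) ≤
      32 ^ (2 * l + 1) := by
    have hq2l' : q ^ 2 ≤ 2 ^ (2 * l) :=
      hq2l.trans (Nat.pow_le_pow_right (by norm_num) (by omega))
    calc 2 * (q ^ 2 * ((s + 1) * (s + 2)) * ((2 * l + 1) ^ 2 * 2 ^ (2 * l)))
        ≤ 2 * (2 ^ (2 * l) * 2 ^ (2 * l + 2) * ((2 ^ (2 * l)) ^ 2 * 2 ^ (2 * l))) := by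
          refine Nat.mul_le_mul_left _ (Nat.mul_le_mul (Nat.mul_le_mul hq2l' hss)
            (Nat.mul_le_mul_right _ (Nat.pow_le_pow_left hm1 2)))
      _ = 8 * (2 ^ (2 * l)) ^ 5 := by
          rw [pow_add 2 (2 * l)]
          ring
      _ = 8 * 32 ^ (2 * l) := by
          rw [← pow_mul, mul_comm (2 * l) 5, pow_mul]
          norm_num
      _ ≤ 32 ^ (2 * l + 1) := by
          rw [pow_succ]
          have : 0 < 32 ^ (2 * l) := by positivity
          omega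
  have he2 : 2 * (q ^ 2 * ((s + 1) * (s + 2)) * (k₀ * (512 * (l ^ 2 * L)) + 1) ^ (2 * l)) ≤
      2 ^ (8 * (l * L)) := by
    rw [← hv]
    calc 2 * (q ^ 2 * ((s + 1) * (s + 2)) * (v + 1) ^ (2 * l))
        ≤ 2 * (2 ^ (2 * L) * 2 ^ (2 * l + 2) * (2 ^ L) ^ (2 * l)) := by
          refine Nat.mul_le_mul_left _ (Nat.mul_le_mul (Nat.mul_le_mul hq2l hss)
            (Nat.pow_le_pow_left hv1l _))
      _ = 2 ^ (1 + (2 * L + (2 * l + 2)) + L * (2 * l)) := by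
          rw [pow_add, pow_add, pow_add, ← pow_mul]
          ring
      _ ≤ 2 ^ (8 * (l * L)) := by
          refine Nat.pow_le_pow_right (by norm_num) ?_
          nlinarith [Nat.mul_le_mul hl2 hL, Nat.mul_le_mul_right L hl2, Nat.mul_le_mul_left l hL]
  have hcl : 2 * n₀ ^ k₀ * (4 * l ^ 2 - 1) ^ (k₀.choose 2) ≤ (4 * l ^ 2) ^ (k₀.choose 2) := by
    refine clique_count (l := L) (by omega) (hn₀n.trans hnL) ?_
    rw [hk₀]
    have h1 : 2 * (4 * l ^ 2) * (L + 1) + 1 = 8 * (l ^ 2 * L) + 8 * l ^ 2 + 1 := by ring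
    have h2 : l ^ 2 * 1 ≤ l ^ 2 * L := Nat.mul_le_mul_left _ hL
    have h3 : 17 * l ^ 2 * L = 17 * (l ^ 2 * L) := by ring
    omega
  -- detectors
  set I : Finset (Fin s) := insert out C.watched with hI
  choose F hF1 hF2 hF3 using C.exists_detector I (Finset.subset_insert _ _)
  set U : SimpleGraph (Fin n₀) → SimpleGraph (Fin n) := fun G => uni n n₀ ⊔ G.map (emb hn₀n)
    with hU
  have hUmono : ∀ G H, G ≤ H → U G ≤ U H := by
    intro G H hGH
    refine sup_le_sup_left ?_ _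
    exact SimpleGraph.map_monotone _ hGH
  have hfin : q ^ 2 ≤ 4 * (B + 1) + 2 := by
    refine dense_alt (k := k₀) (w := 512 * (l ^ 2 * L)) (Q := 4 * l ^ 2) (q := q) (n := n₀)
      (s := (s + 1) * (s + 2)) (m := 2 * l) (h := 8 * (l * L)) hq (by omega) ?_ ?_ ?_
      hvleq hvq he1 he2 hcl (F := fun G H => F (U G) (U H))
      (fun G => (hF1 (U G)).restrict (emb hn₀n) (uni n n₀)) ?_ ?_
    · have : 1 * 1 ≤ l * L := Nat.mul_le_mul hl hL
      omega
    · exact le_of_eq (by ring)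
    · exact le_of_eq (by ring)
    · intro G H hGH hG hH
      show F (U G) (U H)
      rw [hF3 (U G) (U H) (hUmono G H hGH)]
      refine ⟨out, Finset.mem_insert_self _ _, ?_⟩
      have h1 : ¬ (U H).CliqueFree k := by
        rw [hkk]
        exact (cliqueFree_uni hn₀n H).2 hH
      have h2 : (U G).CliqueFree k := by
        by_contra h3
        rw [hkk] at h3
        exact (cliqueFree_uni hn₀n G).1 h3 hG
      rcases hC with hC | hC
      · rw [hC, hC]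
        tauto
      · rw [hC, hC]
        tauto
    · intro J x hx
      set X : ℕ → SimpleGraph (Fin n) := fun j => U (x j) with hX
      have hXm : Monotone X := fun a b hab => hUmono _ _ (hx hab)
      have h1 : nc (fun j : Fin J => F (U (x j.1)) (U (x (j.1 + 1)))) ≤
          nc (fun j : Fin J => ∃ i ∈ C.watched, ¬ (C.fn i (X j.1) ↔ C.fn i (X (j.1 + 1)))) +
          nc (fun j : Fin J => ¬ (C.fn out (X j.1) ↔ C.fn out (X (j.1 + 1)))) := by
        refine le_trans (nc_mono fun j hj => ?_) (nc_or_le _ _)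
        obtain ⟨i, hi, hne⟩ := (hF3 _ _ (hXm (Nat.le_succ j.1))).1 hj
        rcases Finset.mem_insert.1 hi with rfl | hi
        · exact Or.inr hne
        · exact Or.inl ⟨i, hi, hne⟩
      have h2 := nc_out_le (J := J) hC hXm
      have h3 : nc (fun j : Fin J => ∃ i ∈ C.watched,
          ¬ (C.fn i (X j.1) ↔ C.fn i (X (j.1 + 1)))) ≤ B := by
        by_contra hcon'
        have hcon' := not_le.1 hcon'
        rw [nc_fin_eq J fun j => ∃ i ∈ C.watched, ¬ (C.fn i (X j) ↔ C.fn i (X (j + 1)))] at hcon'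
        obtain ⟨g, hg, _, _, hg3⟩ := exists_subchain C C.watched X
          (fun J => @Finset.filter _ (fun j => ∃ i ∈ C.watched,
            ¬ (C.fn i (X j) ↔ C.fn i (X (j + 1)))) (Classical.decPred _) (range J))
          (fun J => rfl) J
        obtain ⟨a, ha, h4⟩ := hcon (fun a => X (g a)) (fun a b hab => hXm (hg hab))
        obtain ⟨i, hi, hne⟩ := hg3 a (by omega)
        exact hne (h4 i hi)
      exact h1.trans (Nat.add_le_add h3 h2)
  -- conclusion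
  have h1 : n ^ 2 < (4 * (q * v)) ^ 2 := Nat.pow_lt_pow_left hqv (by norm_num)
  have h2 : (4 * (q * v)) ^ 2 = 16 * v ^ 2 * q ^ 2 := by ring
  have h3 : 16 * v ^ 2 * q ^ 2 ≤ 16 * v ^ 2 * (4 * (B + 1) + 2) := Nat.mul_le_mul_left _ hfin
  have h4 : 16 * v ^ 2 * (4 * (B + 1) + 2) =
      4848615424 * (Y * B) + 7272923136 * Y := by
    rw [hv2]
    ring
  have h5 : 8589934592 * (Y * B) ≤ n ^ 2 := by
    calc 8589934592 * (Y * B) = 2 ^ 33 * Y * B := by ring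
      _ ≤ _ := hA2
  have h6 : Y * 2 ≤ Y * B := by
    refine Nat.mul_le_mul_left _ ?_
    by_contra hcon'
    have h7 : 2 ^ 33 * Y * (B + 1) ≤ 2 ^ 33 * Y * 2 := Nat.mul_le_mul_left _ (by omega)
    have h8 : (2 ^ 29 * Y) ^ 2 ≤ n ^ 2 := Nat.pow_le_pow_left hln 2
    have h9 : (2 ^ 29 * Y) ^ 2 = 2 ^ 58 * (Y * Y) := by ring
    have h10 : Y * 1 ≤ Y * Y := Nat.mul_le_mul_left _ hYpos
    omega
  omega

/-- The main theorem and two corollaries. -/
theorem main_all {n L l k s : ℕ} (hL : 1 ≤ L) (hLl : L ≤ l) (hnL : n ≤ 2 ^ L)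
    (hk1 : 17 * l ^ 2 * L ≤ k) (hk2 : 2 * k ≤ n) (hln : 2 ^ 29 * l ^ 8 * L ^ 4 ≤ n)
    (hs : s ≤ 2 ^ l) (C : Circuit n s) (out : Fin s)
    (hC : (∀ G : SimpleGraph (Fin n), C.fn out G ↔ ¬ G.CliqueFree k) ∨
      (∀ G : SimpleGraph (Fin n), C.fn out G ↔ G.CliqueFree k)) :
    (∃ A : ℕ, n ^ 2 ≤ 2 ^ 33 * l ^ 8 * L ^ 4 * A ∧
      ∃ y : ℕ → SimpleGraph (Fin n), Monotone y ∧
        ∀ a < A, ∃ i ∈ C.watched, ¬ (C.fn i (y a) ↔ C.fn i (y (a + 1)))) ∧
    (∀ r t : ℕ, C.special.card ≤ r → (∀ i ∈ C.special, (C.ins i).card ≤ t) →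
      n ^ 2 ≤ 2 ^ 33 * l ^ 8 * L ^ 4 * (t * 2 ^ r)) ∧
    (∀ (d : ℕ) (lev : Fin s → ℕ), (∀ i, ∀ j ∈ C.ins i, lev j ≤ lev i) →
      (∀ i ∈ C.special, ∀ j ∈ C.ins i, lev j < lev i) → (∀ j ∈ C.watched, lev j < d) →
      n ^ 2 ≤ 2 ^ 33 * l ^ 8 * L ^ 4 *
        ∏ a ∈ range d, (1 + (C.watched.filter fun j => lev j = a).card)) := by
  obtain ⟨A, hA, y, hy, hAy⟩ := main hL hLl hnL hk1 hk2 hln hs C out hC
  refine ⟨⟨A, hA, y, hy, hAy⟩, fun r t hr ht => ?_, fun d lev h1 h2 h3 => ?_⟩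
  · have h4 := changes_le_few C hr ht hy hAy
    exact hA.trans (Nat.mul_le_mul_left _ (h4.trans (Nat.mul_le_mul_left _ (Nat.sub_le _ _))))
  · have h4 := changes_le_levels C lev h1 h2 h3 hy hAy
    exact hA.trans (Nat.mul_le_mul_left _ (by omega))

end Pool.Agent.H25.NP
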