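import Pool.Agent.H25.NP.Fin

/-!
Adding universal vertices.
-/

namespace Pool.Agent.H25.NP

open Finset
open Pool.Agent.H25.NM

/-- The graph in which all vertices with number at least `n₀` are adjacent to all vertices. -/
def uni (n n₀ : ℕ) : SimpleGraph (Fin n) where
  Adj x y := x ≠ y ∧ (n₀ ≤ x.1 ∨ n₀ ≤ y.1)
  symm := ⟨fun _ _ h => ⟨h.1.symm, h.2.symm⟩⟩
  loopless := ⟨fun _ h => h.1 rfl⟩

/-- The first `n₀` vertices. -/
def emb {n n₀ : ℕ} (h : n₀ ≤ n) : Fin n₀ ↪ Fin n := ⟨Fin.castLE h, Fin.castLE_injective h⟩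

theorem emb_val {n n₀ : ℕ} (h : n₀ ≤ n) (x : Fin n₀) : (emb h x).1 = x.1 := rfl

theorem card_big {n n₀ : ℕ} (h : n₀ ≤ n) :
    ((univ : Finset (Fin n)).filter fun x => n₀ ≤ x.1).card = n - n₀ := by
  classical
  have h1 : ((univ : Finset (Fin n)).filter fun x => ¬ n₀ ≤ x.1) = univ.map (emb h) := by
    ext x
    rw [Finset.mem_filter, Finset.mem_map]
    constructor
    · rintro ⟨_, hx⟩
      exact ⟨⟨x.1, by omega⟩, Finset.mem_univ _, Fin.ext rfl⟩
    · rintro ⟨y, _, rfl⟩
      refine ⟨Finset.mem_univ _, ?_⟩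
      rw [emb_val]
      have := y.2
      omega
  have h2 := Finset.card_filter_add_card_filter_not (s := (univ : Finset (Fin n)))
    fun x => n₀ ≤ x.1
  rw [h1, Finset.card_map, Finset.card_univ, Finset.card_univ, Fintype.card_fin,
    Fintype.card_fin] at h2
  omega

theorem cliqueFree_uni {n n₀ k₀ : ℕ} (h : n₀ ≤ n) (G : SimpleGraph (Fin n₀)) :
    ¬ (uni n n₀ ⊔ G.map (emb h)).CliqueFree (k₀ + (n - n₀)) ↔ ¬ G.CliqueFree k₀ := by
  classical
  constructor
  · intro h1 h2
    refine h1 fun K hK => ?_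
    set K₀ : Finset (Fin n₀) := univ.filter fun x => emb h x ∈ K with hK₀
    have hsub : K ⊆ K₀.map (emb h) ∪ (univ : Finset (Fin n)).filter fun x => n₀ ≤ x.1 := by
      intro x hx
      rw [Finset.mem_union]
      by_cases hx0 : n₀ ≤ x.1
      · exact Or.inr (Finset.mem_filter.2 ⟨Finset.mem_univ _, hx0⟩)
      · left
        refine Finset.mem_map.2 ⟨⟨x.1, by omega⟩, ?_, Fin.ext rfl⟩
        refine Finset.mem_filter.2 ⟨Finset.mem_univ _, ?_⟩
        have : emb h ⟨x.1, by omega⟩ = x := Fin.ext rfl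
        rw [this]
        exact hx
    have hc := (Finset.card_le_card hsub).trans (Finset.card_union_le _ _)
    rw [hK.card_eq, Finset.card_map, card_big h] at hc
    have hcl : G.IsClique (K₀ : Set (Fin n₀)) := by
      intro x hx y hy hxy
      have hx' := (Finset.mem_filter.1 (Finset.mem_coe.1 hx)).2
      have hy' := (Finset.mem_filter.1 (Finset.mem_coe.1 hy)).2
      have h3 := hK.isClique hx' hy' fun h' => hxy ((emb h).injective h')
      rcases h3 with h3 | h3
      · exfalso
        have hx2 := x.2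
        have hy2 := y.2
        rcases h3.2 with h4 | h4
        · rw [emb_val] at h4
          omega
        · rw [emb_val] at h4
          omega
      · rw [SimpleGraph.map_adj] at h3
        obtain ⟨a, b, hab, ha, hb⟩ := h3
        rw [← (emb h).injective ha, ← (emb h).injective hb]
        exact hab
    have h3 : G.IsNClique K₀.card K₀ := ⟨hcl, rfl⟩
    exact h3.not_cliqueFree (h2.mono (by omega))
  · intro h1 h2
    refine h1 fun K₀ hK₀ => ?_
    refine h2 (K₀.map (emb h) ∪ (univ : Finset (Fin n)).filter fun x => n₀ ≤ x.1) ⟨?_, ?_⟩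
    · intro x hx y hy hxy
      rw [Finset.mem_coe, Finset.mem_union] at hx hy
      by_cases hxb : n₀ ≤ x.1
      · exact Or.inl ⟨hxy, Or.inl hxb⟩
      · by_cases hyb : n₀ ≤ y.1
        · exact Or.inl ⟨hxy, Or.inr hyb⟩
        · right
          rcases hx with hx | hx
          · rcases hy with hy | hy
            · obtain ⟨a, ha, rfl⟩ := Finset.mem_map.1 hx
              obtain ⟨b, hb, rfl⟩ := Finset.mem_map.1 hy
              rw [SimpleGraph.map_adj]
              exact ⟨a, b, hK₀.isClique ha hb fun hab => hxy (by rw [hab]), rfl, rfl⟩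
            · exact absurd (Finset.mem_filter.1 hy).2 hyb
          · exact absurd (Finset.mem_filter.1 hx).2 hxb
    · rw [Finset.card_union_of_disjoint, Finset.card_map, hK₀.card_eq, card_big h]
      rw [Finset.disjoint_left]
      intro x hx hx'
      obtain ⟨a, _, rfl⟩ := Finset.mem_map.1 hx
      have h3 := (Finset.mem_filter.1 hx').2
      rw [emb_val] at h3
      have := a.2
      omega

end Pool.Agent.H25.NP
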