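import Pool.Agent.H25.NP.Win

/-!
Monotone functions with few negations: `log₂ (N / D) + 1` negations suffice.
-/

set_option linter.unusedSectionVars false

namespace Pool.Agent.H25.NP

open Finset

/-- The number of sets with at most `m` elements. -/
theorem card_sets_le (V : Type) [Fintype V] [DecidableEq V] (m : ℕ) :
    ((univ : Finset (Finset V)).filter fun T => T.card ≤ m).card ≤ (Fintype.card V + 1) ^ m := by
  classical
  have h : ((univ : Finset (Finset V)).filter fun T => T.card ≤ m) ⊆
      (univ : Finset (Fin m → Option V)).image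
        fun f => (univ : Finset V).filter fun v => ∃ i, f i = some v := by
    intro T hT
    have hT := (Finset.mem_filter.1 hT).2
    rw [Finset.mem_image]
    refine ⟨fun i => if h : i.1 < T.card then some ((T.equivFin.symm ⟨i.1, h⟩ : T) : V) else none,
      Finset.mem_univ _, ?_⟩
    ext v
    rw [Finset.mem_filter]
    constructor
    · rintro ⟨_, i, hi⟩
      beta_reduce at hi
      by_cases h : i.1 < T.card
      · rw [dif_pos h, Option.some.injEq] at hi
        rw [← hi]
        exact (T.equivFin.symm ⟨i.1, h⟩).2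
      · rw [dif_neg h] at hi
        exact absurd hi (by simp)
    · intro hv
      refine ⟨Finset.mem_univ _, ⟨(T.equivFin ⟨v, hv⟩).1, (T.equivFin ⟨v, hv⟩).2.trans_le hT⟩, ?_⟩
      simp
  refine (Finset.card_le_card h).trans (Finset.card_image_le.trans ?_)
  rw [Finset.card_univ, Fintype.card_fun, Fintype.card_fin, Fintype.card_option]

/-- A function computed by a program can be added with its input substituted. -/
theorem Comp.subst {α β : Type} {Base : Set (α → Prop)} {Base' : Set (β → Prop)} {c : α → Prop}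
    {s r : ℕ} (hc : Comp Base {c} s r) (φ : β → α) {K : Set (β → Prop)} {s₀ r₀ : ℕ}
    (h : Comp Base' K s₀ r₀) (hB : ∀ g ∈ Base, (fun x => g (φ x)) ∈ K) :
    Comp Base' (insert (fun x => c (φ x)) K) (s₀ + s) (r + r₀) := by
  obtain ⟨l, h1, h2, h3⟩ := hc
  obtain ⟨l₀, g1, g2, g3⟩ := h
  refine ⟨_, h1.subst φ g1 (fun g hg => g2 _ (hB g hg)), ?_, ?_⟩
  · rintro f (rfl | hf)
    · exact List.mem_append_left _ (List.mem_map_of_mem (h2 c rfl))
    · exact List.mem_append_right _ (g2 f hf)
  · rw [List.length_append, List.length_map]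
    omega

variable {ι : Type} [Fintype ι] [DecidableEq ι]

/-- All windows of a level. -/
theorem comp_windows {c : Finset (ι ⊕ ι) → Prop} {s : ℕ} (hc : Comp (Inp (ι ⊕ ι)) {c} s 0)
    (A : Finset ℕ) (D : ℕ) {K : Set (Finset ι → Prop)} {s₀ : ℕ} (hK : K₀ ι ⊆ K)
    (hthr : ∀ S a, S.card ≤ D → thr S a ∈ K) (h : Comp (Inp ι) K s₀ 0) :
    ∀ j ≤ D, Comp (Inp ι) (K ∪ {g | ∃ a ∈ A, ∃ S : Finset ι, S.card ≤ D - j ∧ g = win c j a S})
      (s₀ + j * (A.card * (Fintype.card ι + 1) ^ D * (s + 2))) 0 := by
  classical
  have hT : (fun _ => True) ∈ K := hK (Or.inl rfl)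
  have hF : (fun _ => False) ∈ K := hK (Or.inr (Or.inl rfl))
  have hI : ∀ i : ι, (fun X : Finset ι => i ∈ X) ∈ K := fun i => hK (Or.inr (Or.inr ⟨i, rfl⟩))
  intro j
  induction j with
  | zero =>
    intro _
    refine h.mono ?_ (by omega)
    rintro f (hf | ⟨a, _, S, hS, rfl⟩)
    · exact hf
    · exact hthr S a (by omega)
  | succ j ih =>
    intro hj
    have h1 := ih (by omega)
    have h2 := h1.family (A ×ˢ ((univ : Finset (Finset ι)).filter fun S => S.card ≤ D - (j + 1)))
      (fun p => win c (j + 1) p.1 p.2) (c := s + 2) (by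
      rintro ⟨a, S⟩ hp K' s' r' hK' hc'
      rw [Finset.mem_product, Finset.mem_filter] at hp
      obtain ⟨ha, _, hS⟩ := hp
      simp only at ha hS
      have g1 := hc.subst (fun X => sub S (fun i => win c j a (insert i S)) X) hc' (by
        rintro g ⟨k, rfl⟩
        rcases k with i | i
        · by_cases hi : i ∈ S
          · have : (fun X : Finset ι => Sum.inl i ∈ sub S (fun i => win c j a (insert i S)) X) =
                fun _ => False := by
              funext X
              rw [mem_sub_inl]
              exact propext ⟨fun h' => (Finset.mem_sdiff.1 h').2 hi, fun h' => h'.elim⟩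
            rw [this]
            exact hK' (Or.inl hF)
          · have : (fun X : Finset ι => Sum.inl i ∈ sub S (fun i => win c j a (insert i S)) X) =
                fun X => i ∈ X := by
              funext X
              rw [mem_sub_inl]
              exact propext ⟨fun h' => (Finset.mem_sdiff.1 h').1,
                fun h' => Finset.mem_sdiff.2 ⟨h', hi⟩⟩
            rw [this]
            exact hK' (Or.inl (hI i))
        · by_cases hi : i ∈ S
          · have : (fun X : Finset ι => Sum.inr i ∈ sub S (fun i => win c j a (insert i S)) X) =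
                fun _ => True := by
              funext X
              rw [mem_sub_inr]
              exact propext ⟨fun _ => trivial, fun _ => Or.inl hi⟩
            rw [this]
            exact hK' (Or.inl hT)
          · have : (fun X : Finset ι => Sum.inr i ∈ sub S (fun i => win c j a (insert i S)) X) =
                win c j a (insert i S) := by
              funext X
              rw [mem_sub_inr]
              exact propext ⟨fun h' => h'.resolve_left hi, fun h' => Or.inr h'⟩
            rw [this]
            refine hK' (Or.inr ⟨a, ha, insert i S, ?_, rfl⟩)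
            rw [Finset.card_insert_of_notMem hi]
            omega)
      rw [Nat.zero_add] at g1
      have g2 := g1.and2 (f₁ := thr S a) (Or.inr (hK' (Or.inl (hthr S a (by omega)))))
        (Or.inl rfl) (g := fun X => thr S a X ∧ c (sub S (fun i => win c j a (insert i S)) X))
        fun X => Iff.rfl
      have g3 := g2.or2 (Or.inl rfl) (f₂ := thr S (a + (j + 1)))
        (Or.inr (Or.inr (hK' (Or.inl (hthr S _ (by omega)))))) (g := win c (j + 1) a S)
        fun X => Iff.rfl
      refine g3.mono ?_ (by omega)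
      rintro f (rfl | hf)
      · exact Or.inl rfl
      · exact Or.inr (Or.inr (Or.inr hf)))
    refine h2.mono ?_ ?_
    · rintro f (hf | ⟨a, ha, S, hS, rfl⟩)
      · exact Or.inl (Or.inl hf)
      · refine Or.inr ⟨(a, S), ?_, rfl⟩
        rw [Finset.mem_coe, Finset.mem_product, Finset.mem_filter]
        exact ⟨ha, Finset.mem_univ _, hS⟩
    · rw [Finset.card_product]
      have e1 : ((univ : Finset (Finset ι)).filter fun S => S.card ≤ D - (j + 1)).card ≤
          (Fintype.card ι + 1) ^ D :=
        (card_sets_le ι _).trans (Nat.pow_le_pow_right (Nat.succ_pos _) (Nat.sub_le _ _))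
      have e2 := Nat.mul_le_mul_right (s + 2) (Nat.mul_le_mul_left A.card e1)
      calc s₀ + j * (A.card * (Fintype.card ι + 1) ^ D * (s + 2)) +
          A.card * ((univ : Finset (Finset ι)).filter fun S => S.card ≤ D - (j + 1)).card * (s + 2)
          ≤ s₀ + j * (A.card * (Fintype.card ι + 1) ^ D * (s + 2)) +
            A.card * (Fintype.card ι + 1) ^ D * (s + 2) := Nat.add_le_add_left e2 _
        _ = s₀ + (j + 1) * (A.card * (Fintype.card ι + 1) ^ D * (s + 2)) := by ring

/-- All thresholds for the small sets. -/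
theorem comp_thr (D : ℕ) : Comp (Inp ι) (K₀ ι ∪ {g | ∃ S a, S.card ≤ D ∧ g = thr S a})
    (Fintype.card ι + 2 + 2 * (Fintype.card ι + 1) ^ (D + 2)) 0 := by
  classical
  have h : ∀ I : Finset (Finset ι), Comp (Inp ι) (K₀ ι ∪ {g | ∃ S ∈ I, ∃ a, g = thr S a})
      (Fintype.card ι + 2 + I.card * (2 * (Fintype.card ι + 1) * (Fintype.card ι + 1))) 0 := by
    intro I
    induction I using Finset.induction_on with
    | empty =>
      refine comp_K₀.mono ?_ (by simp)
      rintro f (hf | ⟨S, hS, _⟩)
      · exact hf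
      · exact absurd hS (Finset.notMem_empty _)
    | insert S I hS ih =>
      have h1 := easy_thr S Set.subset_union_left ih
      rw [Finset.card_insert_of_notMem hS]
      refine h1.mono ?_ (le_of_eq (by ring))
      rintro f (hf | ⟨S', hS', a, rfl⟩)
      · exact Or.inl (Or.inl hf)
      · rcases Finset.mem_insert.1 hS' with rfl | h2
        · exact Or.inr ⟨a, rfl⟩
        · exact Or.inl (Or.inr ⟨S', h2, a, rfl⟩)
  refine (h ((univ : Finset (Finset ι)).filter fun S => S.card ≤ D)).mono ?_ ?_
  · rintro f (hf | ⟨S, a, hS, rfl⟩)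
    · exact Or.inl hf
    · exact Or.inr ⟨S, Finset.mem_filter.2 ⟨Finset.mem_univ _, hS⟩, a, rfl⟩
  · have e1 := Nat.mul_le_mul_right (2 * (Fintype.card ι + 1) * (Fintype.card ι + 1))
      (card_sets_le ι D)
    calc Fintype.card ι + 2 + ((univ : Finset (Finset ι)).filter fun S => S.card ≤ D).card *
          (2 * (Fintype.card ι + 1) * (Fintype.card ι + 1))
        ≤ Fintype.card ι + 2 + (Fintype.card ι + 1) ^ D *
          (2 * (Fintype.card ι + 1) * (Fintype.card ι + 1)) := Nat.add_le_add_left e1 _
      _ = Fintype.card ι + 2 + 2 * (Fintype.card ι + 1) ^ (D + 2) := by ring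

/-- Monotone functions need only `log₂ (N / D) + 1` negations. -/
theorem few_neg {c : Finset (ι ⊕ ι) → Prop} {s : ℕ} (hs : Comp (Inp (ι ⊕ ι)) {c} s 0)
    (hc : ∀ Y Y', Y ⊆ Y' → c Y → c Y')
    {f : Finset ι → Prop} (hf : ∀ X Y, X ⊆ Y → f X → f Y) (hcf : ∀ X, c (lits X) ↔ f X)
    {D r : ℕ} (hD : 1 ≤ D) (hr : Fintype.card ι < D * 2 ^ r) :
    ∃ r' ≤ r, Comp (Inp ι) {f} (16 * (D * (s + 1) * (Fintype.card ι + 1) ^ (D + 2))) r' := by
  classical
  set N := Fintype.card ι with hN
  set m := N / D with hm
  have hmr : m < 2 ^ r := (Nat.div_lt_iff_lt_mul (by omega)).2 (by rw [mul_comm]; exact hr)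
  have hmN : m ≤ N := Nat.div_le_self _ _
  -- the number of negations
  obtain ⟨p, hp1, hp2, hp3⟩ : ∃ p ≤ r, m < 2 ^ p ∧ 2 ^ p ≤ 2 * m + 1 := by
    rcases Nat.eq_zero_or_pos m with h0 | h0
    · exact ⟨0, Nat.zero_le _, by rw [h0]; norm_num, by rw [h0]; norm_num⟩
    · refine ⟨Nat.log 2 m + 1, ?_, Nat.lt_pow_succ_log_self (by norm_num) m, ?_⟩
      · exact Nat.log_lt_of_lt_pow (by omega) hmr
      · have := Nat.pow_log_le_self 2 (x := m) (by omega)
        rw [pow_succ]
        omega
  refine ⟨p, hp1, ?_⟩
  -- thresholds and windows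
  have h1 := comp_thr (ι := ι) D
  rw [← hN] at h1
  set K : Set (Finset ι → Prop) := K₀ ι ∪ {g | ∃ S a, S.card ≤ D ∧ g = thr S a} with hK
  let A : Finset ℕ := (Finset.range (m + 1)).image fun w => w * D
  have hA : A.card ≤ N + 1 := by
    refine Finset.card_image_le.trans ?_
    rw [Finset.card_range]
    omega
  have h2 := comp_windows hs A D (K := K) Set.subset_union_left
    (fun S a hS => Or.inr ⟨S, a, hS, rfl⟩) h1 D le_rfl
  rw [← hN] at h2
  -- the negations
  have h3 := h2.neg_sorted p (fun j => thr ∅ (j * D))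
    (fun j x => thr_antitone ∅ (by rw [add_mul]; omega) x)
    (fun j _ _ => Or.inl (Or.inr ⟨∅, j * D, by simp, rfl⟩))
  -- the last stage
  have h4 := h3.family (Finset.range (m + 1))
    (fun w => fun X => win c D (w * D) ∅ X ∧ (w < m → ¬ thr ∅ ((w + 1) * D) X)) (c := 1) (by
    intro w hw K' s' r' hK' hc'
    have hwm := Finset.mem_range.1 hw
    have g1 : win c D (w * D) ∅ ∈ K' := hK' (Or.inl (Or.inr ⟨w * D,
      Finset.mem_image.2 ⟨w, hw, rfl⟩, ∅, by simp, rfl⟩))
    rcases Nat.lt_or_ge w m with h5 | h5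
    · have g2 : (fun X => ¬ thr (∅ : Finset ι) ((w + 1) * D) X) ∈ K' :=
        hK' (Or.inr ⟨w + 1, by omega, by omega, rfl⟩)
      refine hc'.and2 g1 g2 fun X => ?_
      show (win c D (w * D) ∅ X ∧ (w < m → ¬ thr ∅ ((w + 1) * D) X)) ↔
        (win c D (w * D) ∅ X ∧ ¬ thr ∅ ((w + 1) * D) X)
      constructor
      · rintro ⟨h6, h7⟩
        exact ⟨h6, h7 h5⟩
      · rintro ⟨h6, h7⟩
        exact ⟨h6, fun _ => h7⟩
    · have e : (fun X => win c D (w * D) ∅ X ∧ (w < m → ¬ thr ∅ ((w + 1) * D) X)) =
          win c D (w * D) ∅ := by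
        funext X
        exact propext ⟨fun h => h.1, fun h => ⟨h, fun h' => absurd h' (by omega)⟩⟩
      rw [e]
      refine hc'.mono ?_ (by omega)
      rintro g (rfl | hg)
      · exact g1
      · exact hg)
  have h5 := h4.or ((fun w => fun X => win c D (w * D) ∅ X ∧ (w < m → ¬ thr ∅ ((w + 1) * D) X)) ''
    (Finset.range (m + 1) : Set ℕ)) Set.subset_union_right (g := f) (by
    intro X
    have hXN : X.card ≤ N := Finset.card_le_univ X
    have hsp := fun a => win_spec hc hf hcf a D ∅ X
    simp only [Finset.sdiff_empty] at hsp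
    constructor
    · intro hfX
      refine ⟨_, ⟨X.card / D, ?_, rfl⟩, ?_⟩
      · rw [Finset.mem_coe, Finset.mem_range]
        have : X.card / D ≤ m := Nat.div_le_div_right hXN
        omega
      · have e1 : X.card / D * D ≤ X.card := Nat.div_mul_le_self _ _
        have e2 : X.card < (X.card / D + 1) * D := by
          rw [add_mul, one_mul]
          exact Nat.lt_div_mul_add (by omega)
        refine ⟨?_, fun _ h => ?_⟩
        · have e3 := (hsp (X.card / D * D)).2.2 e1 (by rw [add_mul, one_mul] at e2; exact e2)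
          exact e3.2 hfX
        · have e3 : (X.card / D + 1) * D ≤ (X \ ∅).card := h
          rw [Finset.sdiff_empty] at e3
          omega
    · rintro ⟨_, ⟨w, hw, rfl⟩, h6, h7⟩
      have hwm : w < m + 1 := Finset.mem_range.1 (Finset.mem_coe.1 hw)
      obtain ⟨g1, _, g3⟩ := hsp (w * D)
      have e1 : w * D ≤ X.card := by
        by_contra h
        exact g1 (by omega) h6
      have e2 : X.card < w * D + D := by
        rcases Nat.lt_or_ge w m with h8 | h8
        · have h9 := h7 h8
          have h10 : ¬ (w + 1) * D ≤ (X \ ∅).card := h9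
          rw [Finset.sdiff_empty, add_mul, one_mul] at h10
          omega
        · have hwm' : w = m := by omega
          have h10 : N < m * D + D := Nat.lt_div_mul_add (by omega)
          rw [hwm']
          omega
      exact (g3 e1 e2).1 h6)
  rw [Nat.zero_add] at h5
  refine h5.mono ?_ ?_
  · rintro g rfl
    exact Or.inl rfl
  · rw [Finset.card_range]
    set P := (N + 1) ^ (D + 1) with hP
    have hP2 : (N + 1) ^ (D + 2) = P * (N + 1) := by rw [hP, pow_succ]
    have hP1 : (N + 1) ^ D * (N + 1) = P := by rw [hP, pow_succ]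
    have hPN : N + 1 ≤ P := by
      calc N + 1 = (N + 1) ^ 1 := (pow_one _).symm
        _ ≤ (N + 1) ^ (D + 1) := Nat.pow_le_pow_right (Nat.succ_pos _) (by omega)
    have e1 : A.card * (N + 1) ^ D * (s + 2) ≤ P * (s + 2) := by
      refine Nat.mul_le_mul_right _ ?_
      calc A.card * (N + 1) ^ D ≤ (N + 1) * (N + 1) ^ D := Nat.mul_le_mul_right _ hA
        _ = P := by rw [mul_comm, hP1]
    have e2 : D * (A.card * (N + 1) ^ D * (s + 2)) ≤ D * (P * (s + 2)) := Nat.mul_le_mul_left _ e1
    have e3 : D * (P * (s + 2)) ≤ 2 * (D * (s + 1) * (P * (N + 1))) := by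
      calc D * (P * (s + 2)) ≤ D * (P * (2 * (s + 1))) :=
            Nat.mul_le_mul_left _ (Nat.mul_le_mul_left _ (by omega))
        _ = 2 * (D * (s + 1) * (P * 1)) := by ring
        _ ≤ 2 * (D * (s + 1) * (P * (N + 1))) := Nat.mul_le_mul_left _ (Nat.mul_le_mul_left _
            (Nat.mul_le_mul_left _ (by omega)))
    have e4 : P * (N + 1) ≤ D * (s + 1) * (P * (N + 1)) :=
      Nat.le_mul_of_pos_left _ (Nat.mul_pos hD (Nat.succ_pos _))
    have e5 : N + 1 ≤ P * (N + 1) := Nat.le_mul_of_pos_left _ (by omega)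
    rw [hP2]
    omega

end Pool.Agent.H25.NP
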