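import Pool.Agent.H25.NP.Lst

/-!
Monotone programs for a monotone function on a window of `D` consecutive weights.
-/

set_option linter.unusedSectionVars false

namespace Pool.Agent.H25.NP

open Finset

section

variable {ι : Type} [Fintype ι] [DecidableEq ι]

/-- The weight outside `S` is at least `a`. -/
def thr (S : Finset ι) (a : ℕ) : Finset ι → Prop := fun X => a ≤ (X \ S).card

theorem thr_antitone (S : Finset ι) {a b : ℕ} (h : a ≤ b) (X : Finset ι) :
    thr S b X → thr S a X := fun h' => h.trans h'

/-- The basic functions. -/
def Inp (ι : Type) : Set (Finset ι → Prop) := {g | ∃ i : ι, g = fun X => i ∈ X}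

/-- The basic functions and the constants. -/
def K₀ (ι : Type) : Set (Finset ι → Prop) :=
  insert (fun _ => True) (insert (fun _ => False) (Inp ι))

theorem comp_K₀ : Comp (Inp ι) (K₀ ι) (Fintype.card ι + 2) 0 := by
  classical
  have h0 : Comp (Inp ι) ∅ 0 0 := ⟨[], NProg.nil, fun f hf => absurd hf (Set.notMem_empty f), le_rfl⟩
  have h1 := h0.family (Finset.univ : Finset ι) (fun i => fun X => i ∈ X) (c := 1)
    fun i _ K' s r _ hc => hc.base ⟨i, rfl⟩
  have h2 := h1.or ∅ (Set.empty_subset _) (g := fun _ => False) fun x => by simp
  have h3 := h2.and ∅ (Set.empty_subset _) (g := fun _ => True) fun x => by simp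
  refine h3.mono ?_ ?_
  · rintro f (rfl | rfl | ⟨i, rfl⟩)
    · exact Or.inl rfl
    · exact Or.inr (Or.inl rfl)
    · exact Or.inr (Or.inr (Or.inr ⟨i, Finset.mem_coe.2 (Finset.mem_univ i), rfl⟩))
  · rw [Finset.card_univ]
    omega

/-- Thresholds by dynamic programming. -/
theorem easy_thr (S : Finset ι) {K : Set (Finset ι → Prop)} {s r : ℕ} (hK : K₀ ι ⊆ K)
    (h : Comp (Inp ι) K s r) :
    Comp (Inp ι) (K ∪ {g | ∃ a, g = thr S a})
      (s + 2 * (Fintype.card ι + 1) * (Fintype.card ι + 1)) r := by
  classical
  set N := Fintype.card ι with hN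
  let e : ι ≃ Fin N := Fintype.equivFin ι
  let θ : ℕ → ℕ → Finset ι → Prop := fun p a X => a ≤ ((X \ S).filter fun i => (e i).1 < p).card
  have hT : (fun _ => True) ∈ K := hK (Or.inl rfl)
  have hF : (fun _ => False) ∈ K := hK (Or.inr (Or.inl rfl))
  have hI : ∀ i : ι, (fun X : Finset ι => i ∈ X) ∈ K := fun i => hK (Or.inr (Or.inr ⟨i, rfl⟩))
  -- the step of the recursion
  have hstep : ∀ (p : ℕ) (hp : p < N) (a : ℕ) (X : Finset ι), θ (p + 1) (a + 1) X ↔
      (θ p (a + 1) X ∨ (θ p a X ∧ e.symm ⟨p, hp⟩ ∈ X \ S)) := by
    intro p hp a X
    set i₀ : ι := e.symm ⟨p, hp⟩ with hi₀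
    have hei : (e i₀).1 = p := by
      rw [hi₀, Equiv.apply_symm_apply]
    show a + 1 ≤ ((X \ S).filter fun i => (e i).1 < p + 1).card ↔
      (a + 1 ≤ ((X \ S).filter fun i => (e i).1 < p).card ∨
        (a ≤ ((X \ S).filter fun i => (e i).1 < p).card ∧ i₀ ∈ X \ S))
    by_cases hi : i₀ ∈ X \ S
    · have h1 : ((X \ S).filter fun i => (e i).1 < p + 1) =
          insert i₀ ((X \ S).filter fun i => (e i).1 < p) := by
        ext i
        rw [Finset.mem_insert, Finset.mem_filter, Finset.mem_filter]
        constructor
        · rintro ⟨h1, h2⟩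
          rcases Nat.lt_succ_iff_lt_or_eq.1 h2 with h3 | h3
          · exact Or.inr ⟨h1, h3⟩
          · left
            exact e.injective (Fin.ext (h3.trans hei.symm))
        · rintro (rfl | ⟨h1, h2⟩)
          · exact ⟨hi, by omega⟩
          · exact ⟨h1, by omega⟩
      have h2 : i₀ ∉ ((X \ S).filter fun i => (e i).1 < p) := by
        intro h
        have := (Finset.mem_filter.1 h).2
        omega
      rw [h1, Finset.card_insert_of_notMem h2]
      constructor
      · intro h
        exact Or.inr ⟨by omega, hi⟩
      · rintro (h | ⟨h, _⟩)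
        · omega
        · omega
    · have h1 : ((X \ S).filter fun i => (e i).1 < p + 1) =
          ((X \ S).filter fun i => (e i).1 < p) := by
        ext i
        rw [Finset.mem_filter, Finset.mem_filter]
        constructor
        · rintro ⟨h1, h2⟩
          rcases Nat.lt_succ_iff_lt_or_eq.1 h2 with h3 | h3
          · exact ⟨h1, h3⟩
          · exfalso
            have : i = i₀ := e.injective (Fin.ext (h3.trans hei.symm))
            rw [this] at h1
            exact hi h1
        · rintro ⟨h1, h2⟩
          exact ⟨h1, by omega⟩
      rw [h1]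
      constructor
      · exact fun h => Or.inl h
      · rintro (h | ⟨_, h⟩)
        · exact h
        · exact absurd h hi
  have hzero : ∀ p, θ p 0 = fun _ => True := by
    intro p
    funext X
    exact propext ⟨fun _ => trivial, fun _ => Nat.zero_le _⟩
  have hrec : ∀ p ≤ N, Comp (Inp ι) (K ∪ {g | ∃ a ≤ N, g = θ p a}) (s + p * ((N + 1) * 2)) r := by
    intro p
    induction p with
    | zero =>
      intro _
      refine h.mono ?_ (by omega)
      rintro f (hf | ⟨a, _, rfl⟩)
      · exact hf
      · rcases Nat.eq_zero_or_pos a with h0 | h0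
        · rw [h0, hzero]
          exact hT
        · have : θ 0 a = fun _ => False := by
            funext X
            refine propext ⟨fun h' => ?_, fun h' => h'.elim⟩
            have h1 : a ≤ ((X \ S).filter fun i => (e i).1 < 0).card := h'
            simp at h1
            omega
          rw [this]
          exact hF
    | succ p ih =>
      intro hp
      have h1 := ih (by omega)
      have h2 := h1.family (Finset.range (N + 1)) (fun a => θ (p + 1) a) (c := 2) (by
        intro a ha K' s' r' hK' hc
        have haN : a ≤ N := by
          have := Finset.mem_range.1 ha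
          omega
        rcases Nat.eq_zero_or_pos a with h0 | h0
        · rw [h0]
          have : θ (p + 1) 0 ∈ K' := by
            rw [hzero]
            exact hK' (Or.inl hT)
          refine hc.mono ?_ (by omega)
          rintro f (rfl | hf)
          · exact this
          · exact hf
        · obtain ⟨b, rfl⟩ : ∃ b, a = b + 1 := ⟨a - 1, by omega⟩
          have g1 : θ p (b + 1) ∈ K' := hK' (Or.inr ⟨b + 1, haN, rfl⟩)
          have g2 : θ p b ∈ K' := hK' (Or.inr ⟨b, by omega, rfl⟩)
          have g3 : (fun X : Finset ι => e.symm ⟨p, by omega⟩ ∈ X \ S) ∈ K' := by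
            by_cases hS : e.symm ⟨p, by omega⟩ ∈ S
            · have : (fun X : Finset ι => e.symm ⟨p, by omega⟩ ∈ X \ S) = fun _ => False := by
                funext X
                refine propext ⟨fun h' => (Finset.mem_sdiff.1 h').2 hS, fun h' => h'.elim⟩
              rw [this]
              exact hK' (Or.inl hF)
            · have : (fun X : Finset ι => e.symm ⟨p, by omega⟩ ∈ X \ S) =
                  fun X => e.symm ⟨p, by omega⟩ ∈ X := by
                funext X
                exact propext ⟨fun h' => (Finset.mem_sdiff.1 h').1,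
                  fun h' => Finset.mem_sdiff.2 ⟨h', hS⟩⟩
              rw [this]
              exact hK' (Or.inl (hI _))
          have g4 := hc.and2 g2 g3 (g := fun X => θ p b X ∧ e.symm ⟨p, by omega⟩ ∈ X \ S)
            fun X => Iff.rfl
          have g5 := g4.or2 (f₁ := θ p (b + 1))
            (f₂ := fun X => θ p b X ∧ e.symm ⟨p, by omega⟩ ∈ X \ S) (Or.inr g1) (Or.inl rfl)
            (g := θ (p + 1) (b + 1)) fun X => hstep p (by omega) b X
          refine g5.mono ?_ (by omega)
          rintro f (rfl | hf)
          · exact Or.inl rfl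
          · exact Or.inr (Or.inr hf))
      refine h2.mono ?_ ?_
      · rintro f (hf | ⟨a, ha, rfl⟩)
        · exact Or.inl (Or.inl hf)
        · exact Or.inr ⟨a, Finset.mem_coe.2 (Finset.mem_range.2 (by omega)), rfl⟩
      · rw [Finset.card_range]
        exact le_of_eq (by ring)
  have h1 := hrec N le_rfl
  refine h1.mono ?_ ?_
  · rintro f (hf | ⟨a, rfl⟩)
    · exact Or.inl hf
    · have hθ : θ N a = thr S a := by
        funext X
        show (a ≤ ((X \ S).filter fun i => (e i).1 < N).card) = (a ≤ (X \ S).card)
        rw [Finset.filter_true_of_mem fun i _ => (e i).2]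
      by_cases ha : a ≤ N
      · exact Or.inr ⟨a, ha, hθ.symm⟩
      · left
        have : thr S a = fun _ => False := by
          funext X
          refine propext ⟨fun h' => ?_, fun h' => h'.elim⟩
          have h2 : a ≤ (X \ S).card := h'
          have h3 := Finset.card_le_univ (X \ S)
          omega
        rw [this]
        exact hF
  · nlinarith

/-- The inputs and their negations. -/
noncomputable def lits (X : Finset ι) : Finset (ι ⊕ ι) :=
  @Finset.filter _ (fun k => Sum.elim (fun i => i ∈ X) (fun i => i ∉ X) k)
    (Classical.decPred _) univ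

theorem mem_lits_inl {X : Finset ι} {i : ι} : Sum.inl i ∈ lits X ↔ i ∈ X := by
  simp [lits]

theorem mem_lits_inr {X : Finset ι} {i : ι} : Sum.inr i ∈ lits X ↔ i ∉ X := by
  simp [lits]

/-- The inputs outside `S` and substitutes for their negations. -/
noncomputable def sub (S : Finset ι) (m : ι → Finset ι → Prop) (X : Finset ι) : Finset (ι ⊕ ι) :=
  @Finset.filter _ (fun k => Sum.elim (fun i => i ∈ X \ S) (fun i => i ∈ S ∨ m i X) k)
    (Classical.decPred _) univ

theorem mem_sub_inl {S : Finset ι} {m : ι → Finset ι → Prop} {X : Finset ι} {i : ι} :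
    Sum.inl i ∈ sub S m X ↔ i ∈ X \ S := by
  simp [sub]

theorem mem_sub_inr {S : Finset ι} {m : ι → Finset ι → Prop} {X : Finset ι} {i : ι} :
    Sum.inr i ∈ sub S m X ↔ (i ∈ S ∨ m i X) := by
  simp [sub]

/-- The function which is false below weight `a`, true from weight `a + j` on, and computes the
function given by `c` in between, applied to the input without `S`. -/
noncomputable def win (c : Finset (ι ⊕ ι) → Prop) : ℕ → ℕ → Finset ι → Finset ι → Prop
  | 0, a, S => thr S a
  | j + 1, a, S => fun X => (thr S a X ∧ c (sub S (fun i => win c j a (insert i S)) X)) ∨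
      thr S (a + (j + 1)) X

/-- The semantics of the windows. -/
theorem win_spec {c : Finset (ι ⊕ ι) → Prop} (hc : ∀ Y Y', Y ⊆ Y' → c Y → c Y')
    {f : Finset ι → Prop} (hf : ∀ X Y, X ⊆ Y → f X → f Y) (hcf : ∀ X, c (lits X) ↔ f X)
    (a : ℕ) : ∀ j (S X : Finset ι), ((X \ S).card < a → ¬ win c j a S X) ∧
      (a + j ≤ (X \ S).card → win c j a S X) ∧
      (a ≤ (X \ S).card → (X \ S).card < a + j → (win c j a S X ↔ f (X \ S))) := by
  intro j
  induction j with
  | zero =>
    intro S X
    refine ⟨fun h h' => absurd (show a ≤ (X \ S).card from h') (by omega), fun h => ?_,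
      fun h h' => by omega⟩
    exact h
  | succ j ih =>
    intro S X
    refine ⟨?_, ?_, ?_⟩
    · rintro h (⟨h1, _⟩ | h1)
      · have : a ≤ (X \ S).card := h1
        omega
      · have : a + (j + 1) ≤ (X \ S).card := h1
        omega
    · intro h
      exact Or.inr h
    · intro h1 h2
      have hthr : ¬ thr S (a + (j + 1)) X := by
        intro h
        have : a + (j + 1) ≤ (X \ S).card := h
        omega
      have e1 : win c (j + 1) a S X ↔ c (sub S (fun i => win c j a (insert i S)) X) := by
        constructor
        · rintro (⟨_, h⟩ | h)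
          · exact h
          · exact absurd h hthr
        · intro h
          exact Or.inl ⟨h1, h⟩
      rw [e1, ← hcf]
      have hin : ∀ i, i ∉ X \ S → X \ insert i S = X \ S := by
        intro i hi
        ext x
        rw [Finset.mem_sdiff, Finset.mem_sdiff, Finset.mem_insert]
        constructor
        · rintro ⟨h3, h4⟩
          exact ⟨h3, fun h5 => h4 (Or.inr h5)⟩
        · rintro ⟨h3, h4⟩
          refine ⟨h3, ?_⟩
          rintro (rfl | h5)
          · exact hi (Finset.mem_sdiff.2 ⟨h3, h4⟩)
          · exact h4 h5
      by_cases hfX : f (X \ S)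
      · refine ⟨fun _ => (hcf _).2 hfX, fun h => ?_⟩
        refine hc _ _ ?_ h
        intro k hk
        rcases k with i | i
        · rw [mem_sub_inl]
          exact mem_lits_inl.1 hk
        · rw [mem_sub_inr]
          have hi := mem_lits_inr.1 hk
          right
          obtain ⟨_, h3, h4⟩ := ih (insert i S) X
          rw [hin i hi] at h3 h4
          by_cases h5 : a + j ≤ (X \ S).card
          · exact h3 h5
          · exact (h4 h1 (by omega)).2 hfX
      · refine ⟨fun h => ?_, fun h => absurd ((hcf _).1 h) hfX⟩
        refine hc _ _ ?_ h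
        intro k hk
        rcases k with i | i
        · rw [mem_lits_inl]
          exact mem_sub_inl.1 hk
        · rw [mem_lits_inr]
          rintro hi
          have hiS : i ∉ S := (Finset.mem_sdiff.1 hi).2
          rcases mem_sub_inr.1 hk with h3 | h3
          · exact hiS h3
          · obtain ⟨g1, _, g3⟩ := ih (insert i S) X
            have hsub : X \ insert i S ⊆ X \ S :=
              Finset.sdiff_subset_sdiff (Finset.Subset.refl _) (Finset.subset_insert _ _)
            have hcard : (X \ insert i S).card + 1 = (X \ S).card := by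
              have e2 : X \ insert i S = (X \ S).erase i := by
                ext x
                rw [Finset.mem_sdiff, Finset.mem_erase, Finset.mem_sdiff, Finset.mem_insert]
                tauto
              rw [e2, Finset.card_erase_of_mem hi]
              have : 0 < (X \ S).card := Finset.card_pos.2 ⟨i, hi⟩
              omega
            by_cases h5 : (X \ insert i S).card < a
            · exact g1 h5 h3
            · have h6 := (g3 (by omega) (by omega)).1 h3
              exact hfX (hf _ _ hsub h6)

end

end Pool.Agent.H25.NP
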